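import Mathlib

namespace Pool.Agent.Lib.MP_3ecb7c_co

open Finset
open scoped Classical

noncomputable section

variable {V : Type} (G : SimpleGraph V)

/-- number of neighbours of x inside U -/
def dg (x : V) (U : Finset V) : ℕ := (U.filter (fun y => G.Adj x y)).card

/-- every subset of U dominating U has at least k elements -/
def LowOn (U : Finset V) (k : ℕ) : Prop :=
  ∀ D : Finset V, D ⊆ U → (∀ v ∈ U, v ∈ D ∨ ∃ u ∈ D, G.Adj v u) → k ≤ D.card

lemma dg_eq_sum (x : V) (U : Finset V) :
    dg G x U = ∑ y ∈ U, if G.Adj x y then 1 else 0 := by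
  unfold dg; rw [Finset.card_filter]

lemma sum_dg_comm (A B : Finset V) : ∑ x ∈ A, dg G x B = ∑ y ∈ B, dg G y A := by
  simp only [dg_eq_sum]
  rw [Finset.sum_comm]
  refine Finset.sum_congr rfl fun y _ => Finset.sum_congr rfl fun x _ => ?_
  simp only [G.adj_comm]

lemma dg_union (x : V) {A B : Finset V} (h : Disjoint A B) :
    dg G x (A ∪ B) = dg G x A + dg G x B := by
  simp only [dg_eq_sum]; rw [Finset.sum_union h]

lemma dg_le_card (x : V) (U : Finset V) : dg G x U ≤ U.card := Finset.card_filter_le _ _

lemma dg_mono (x : V) {A B : Finset V} (h : A ⊆ B) : dg G x A ≤ dg G x B :=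
  Finset.card_le_card (Finset.filter_subset_filter _ h)

lemma dg_lt_card {x : V} {U : Finset V} (hx : x ∈ U) : dg G x U + 1 ≤ U.card := by
  have : U.filter (fun y => G.Adj x y) ⊆ U.erase x := by
    intro y hy
    rw [Finset.mem_filter] at hy
    exact Finset.mem_erase.2 ⟨fun h => by rw [h] at hy; exact G.irrefl hy.2, hy.1⟩
  have h2 := Finset.card_le_card this
  rw [Finset.card_erase_of_mem hx] at h2
  have := Finset.card_pos.2 ⟨x, hx⟩
  unfold dg; omega

/-- One step of the Vizing argument. -/
lemma vizing_step (U : Finset V) (k : ℕ) (hU : LowOn G U (k + 1)) (v : V) (hv : v ∈ U)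
    (hmax : ∀ x ∈ U, dg G x U ≤ dg G v U) :
    ∃ r : ℕ, ∃ S : Finset V, S ⊆ U ∧ S.card = k + r ∧ U.card = k + 1 + r + dg G v U ∧
      LowOn G S k ∧
      ∑ x ∈ U, dg G x U ≤ dg G v U * (dg G v U + r + 2) + ∑ x ∈ S, dg G x S := by
  set N := U.filter (fun y => G.Adj v y) with hN
  set S := U.filter (fun y => y ≠ v ∧ ¬ G.Adj v y) with hS
  have hvN : v ∉ N := by simp [hN]
  have hdisj : Disjoint (insert v N) S := by
    rw [Finset.disjoint_left]
    intro x hx hx'
    simp only [hN, hS, Finset.mem_insert, Finset.mem_filter] at hx hx'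
    tauto
  have hU' : U = insert v N ∪ S := by
    ext x
    simp only [hN, hS, Finset.mem_union, Finset.mem_insert, Finset.mem_filter]
    constructor
    · intro hx; by_cases h1 : x = v
      · exact Or.inl (Or.inl h1)
      · by_cases h2 : G.Adj v x
        · exact Or.inl (Or.inr ⟨hx, h2⟩)
        · exact Or.inr ⟨hx, h1, h2⟩
    · rintro ((h | h) | h)
      · exact h ▸ hv
      · exact h.1
      · exact h.1
  have hSU : S ⊆ U := Finset.filter_subset _ _
  have hlow : LowOn G S k := by
    intro D hD hdom
    have := hU (insert v D) (Finset.insert_subset hv (hD.trans hSU)) (by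
      intro x hx
      by_cases h1 : x = v
      · left; simp [h1]
      · by_cases h2 : G.Adj v x
        · right; exact ⟨v, by simp, h2.symm⟩
        · rcases hdom x (by simp [hS, hx, h1, h2]) with h | ⟨u, hu, h⟩
          · left; simp [h]
          · right; exact ⟨u, by simp [hu], h⟩)
    have h2 := Finset.card_insert_le v D
    omega
  have hk : k ≤ S.card := hlow S (Finset.Subset.refl _) (fun x hx => Or.inl hx)
  obtain ⟨r, hr⟩ := Nat.exists_eq_add_of_le hk
  have hNc : N.card = dg G v U := rfl
  have hcard : U.card = k + 1 + r + dg G v U := by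
    conv_lhs => rw [hU']
    rw [Finset.card_union_of_disjoint hdisj, Finset.card_insert_of_notMem hvN]
    omega
  refine ⟨r, S, hSU, hr, hcard, hlow, ?_⟩
  have hsig : ∀ u ∈ N, dg G u S ≤ r + 1 := by
    intro u hu
    have huU : u ∈ U := (Finset.mem_filter.1 hu).1
    have := hU (insert u (insert v (S.filter (fun y => ¬ G.Adj u y))))
      (Finset.insert_subset huU (Finset.insert_subset hv
        ((Finset.filter_subset _ _).trans hSU))) (by
      intro x hx
      by_cases h1 : x = v
      · left; simp [h1]
      · by_cases h2 : G.Adj v x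
        · right; exact ⟨v, by simp, h2.symm⟩
        · by_cases h3 : G.Adj u x
          · right; exact ⟨u, by simp, h3.symm⟩
          · left; simp [hS, hx, h1, h2, h3])
    have h2 := Finset.card_insert_le u (insert v (S.filter (fun y => ¬ G.Adj u y)))
    have h3 := Finset.card_insert_le v (S.filter (fun y => ¬ G.Adj u y))
    have h4 := Finset.card_filter_add_card_filter_not (s := S) (fun y => G.Adj u y)
    unfold dg; omega
  have hSdeg : ∀ s ∈ S, dg G s U = dg G s N + dg G s S := by
    intro s hs
    have h0 : ¬ G.Adj s v := by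
      have := (Finset.mem_filter.1 hs).2.2
      exact fun h => this h.symm
    conv_lhs => rw [hU']
    rw [dg_union G s hdisj]
    congr 1
    unfold dg
    rw [Finset.filter_insert, if_neg h0]
  have e1 : ∑ x ∈ U, dg G x U = dg G v U + ∑ x ∈ N, dg G x U + ∑ x ∈ S, dg G x U := by
    have : ∑ x ∈ U, dg G x U = ∑ x ∈ insert v N ∪ S, dg G x U := by rw [← hU']
    rw [this, Finset.sum_union hdisj, Finset.sum_insert hvN]
  have e2 : ∑ x ∈ S, dg G x U = ∑ x ∈ N, dg G x S + ∑ x ∈ S, dg G x S := by
    rw [Finset.sum_congr rfl hSdeg, Finset.sum_add_distrib, sum_dg_comm]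
  have e3 : ∑ x ∈ N, dg G x U ≤ N.card * dg G v U := by
    have := Finset.sum_le_card_nsmul N (fun x => dg G x U) (dg G v U)
      (fun x hx => hmax x (Finset.mem_filter.1 hx).1)
    simpa using this
  have e4 : ∑ x ∈ N, dg G x S ≤ N.card * (r + 1) := by
    have := Finset.sum_le_card_nsmul N (fun x => dg G x S) (r + 1) hsig
    simpa using this
  rw [hNc] at e3 e4
  rw [e1, e2]
  nlinarith

/-- Vizing's bound. -/
lemma vizing (k : ℕ) : ∀ (U : Finset V) (t : ℕ), LowOn G U k → U.card = k + t →
    ∑ x ∈ U, dg G x U ≤ t * (t + 2) := by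
  induction k with
  | zero =>
    intro U t _ hc
    have := Finset.sum_le_card_nsmul U (fun x => dg G x U) U.card (fun x _ => dg_le_card G x U)
    simp only [smul_eq_mul] at this
    rw [hc] at this
    nlinarith
  | succ k ih =>
    intro U t hU hc
    have hne : U.Nonempty := by rw [← Finset.card_pos]; omega
    obtain ⟨v, hv, hmax⟩ := Finset.exists_max_image U (fun x => dg G x U) hne
    obtain ⟨r, S, _, hSc, hUc, hlow, hle⟩ := vizing_step G U k hU v hv hmax
    have := ih S r hlow hSc
    have ht : t = r + dg G v U := by omega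
    subst ht
    nlinarith [Nat.zero_le (r * dg G v U)]

end

end Pool.Agent.Lib.MP_3ecb7c_co
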