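import Pool.Agent.Lib.MP_3ecb7c_co.Basic

namespace Pool.Agent.Lib.MP_3ecb7c_co

open Finset
open scoped Classical

noncomputable section

variable {V : Type}

lemma one_le_dg {G : SimpleGraph V} {x y : V} {U : Finset V} (hy : y ∈ U) (h : G.Adj x y) :
    1 ≤ dg G x U :=
  Finset.card_pos.2 ⟨y, Finset.mem_filter.2 ⟨hy, h⟩⟩

lemma two_le_dg {G : SimpleGraph V} {x y z : V} {U : Finset V} (hy : y ∈ U) (hz : z ∈ U)
    (h : G.Adj x y) (h' : G.Adj x z) (hne : y ≠ z) : 2 ≤ dg G x U :=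
  Finset.one_lt_card.2 ⟨y, Finset.mem_filter.2 ⟨hy, h⟩, z, Finset.mem_filter.2 ⟨hz, h'⟩, hne⟩

/-- the abstract situation around a vertex of the largest possible degree -/
structure Sit (H : SimpleGraph V) (N S : Finset V) (R : V → V → Prop) : Prop where
  uniq : ∀ u ∈ N, ∀ s ∈ S, ∀ s' ∈ S, R u s → R u s' → s = s'
  ne : ∀ s ∈ S, ∃ u ∈ N, R u s
  two : ∃ s1 ∈ S, ∃ s2 ∈ S, s1 ≠ s2
  c1 : ∀ s ∈ S, ∀ u ∈ N, R u s → ∃ z ∈ N, H.Adj z u ∧ ∀ s' ∈ S, R z s' → s' = s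
  c2 : ∀ s ∈ S, ∀ s' ∈ S, s ≠ s' → ∀ u ∈ N, ∀ u' ∈ N, R u s → R u' s' →
    ∃ z ∈ N, H.Adj z u ∧ H.Adj z u' ∧ ∀ s'' ∈ S, R z s'' → s'' = s ∨ s'' = s'
  p0 : ∀ u ∈ N, ∃ z ∈ N, H.Adj u z
  p1 : ∀ u ∈ N, ∀ u' ∈ N, ∀ s ∈ S, R u s → R u' s → (∀ z ∈ N, H.Adj u z ↔ H.Adj u' z) → u = u'
  notA : ¬ ∃ z ∈ N, (∀ s ∈ S, ¬ R z s) ∧ ∀ u ∈ N, ∀ s ∈ S, R u s → H.Adj z u

def Leaf (H : SimpleGraph V) (N S : Finset V) (R : V → V → Prop) (y z : V) : Prop :=
  y ∈ N ∧ (∃ s ∈ S, R y s) ∧ z ∈ N ∧ H.Adj y z ∧ ∀ z' ∈ N, H.Adj y z' → z' = z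

variable {H : SimpleGraph V} {N S : Finset V} {R : V → V → Prop}

lemma Sit.lf1 (h : Sit H N S R) {y z s : V} (hl : Leaf H N S R y z) (hs : s ∈ S) (hy : R y s) :
    ∀ s' ∈ S, R z s' → s' = s := by
  obtain ⟨z', hz', ha, hr⟩ := h.c1 s hs y hl.1 hy
  have := hl.2.2.2.2 z' hz' ha.symm
  subst this
  exact hr

lemma Sit.lf2 (h : Sit H N S R) {y z s : V} (hl : Leaf H N S R y z) (hs : s ∈ S) (hy : R y s) :
    ∀ s' ∈ S, s' ≠ s → ∀ u ∈ N, R u s' → H.Adj z u := by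
  intro s' hs' hne u hu hr
  obtain ⟨z', hz', ha, hb, _⟩ := h.c2 s hs s' hs' hne.symm y hl.1 u hu hy hr
  have := hl.2.2.2.2 z' hz' ha.symm
  subst this
  exact hb

lemma Sit.lf3 (h : Sit H N S R) {y y' z : V} (hl : Leaf H N S R y z) (hl' : Leaf H N S R y' z) :
    y = y' := by
  obtain ⟨s, hs, hy⟩ := hl.2.1
  obtain ⟨s', hs', hy'⟩ := hl'.2.1
  by_cases hss : s = s'
  · subst hss
    refine h.p1 y hl.1 y' hl'.1 s hs hy hy' fun x hx => ⟨fun hh => ?_, fun hh => ?_⟩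
    · rw [hl.2.2.2.2 x hx hh]; exact hl'.2.2.2.1
    · rw [hl'.2.2.2.2 x hx hh]; exact hl.2.2.2.1
  · exfalso
    refine h.notA ⟨z, hl.2.2.1, fun a ha hr => ?_, fun u hu a ha hr => ?_⟩
    · exact hss ((h.lf1 hl hs hy a ha hr).symm.trans (h.lf1 hl' hs' hy' a ha hr))
    · by_cases has : a = s
      · exact h.lf2 hl' hs' hy' a ha (has ▸ hss) u hu hr
      · exact h.lf2 hl hs hy a ha has u hu hr

lemma Sit.core (h : Sit H N S R) {w w' s1 s2 z0 : V} (hw : w ∈ N) (hw' : w' ∈ N)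
    (hs1 : s1 ∈ S) (hs2 : s2 ∈ S) (hss : s1 ≠ s2) (r1 : R w s1) (r2 : R w' s2)
    (hna : ¬ H.Adj w w') (hz0 : z0 ∈ N) (a1 : H.Adj z0 w) (a2 : H.Adj z0 w')
    (hcl : ∀ s ∈ S, R z0 s → s = s1) (hnl : ∀ y, Leaf H N S R y z0 → y = w ∨ y = w') :
    4 * (N.filter (fun u => ∃ s ∈ S, R u s)).card + N.card ≤ 2 * ∑ x ∈ N, dg H x N + 4 := by
  have hww : w ≠ w' := fun e => hss (h.uniq w hw s1 hs1 s2 hs2 r1 (e ▸ r2))
  set A := N.filter (fun x => H.Adj x w ∨ H.Adj x w') with hA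
  set B : Finset V := {w, w'} with hB
  set Y := N.filter (fun x => x ≠ w ∧ x ≠ w' ∧ ¬ (H.Adj x w ∨ H.Adj x w')) with hY
  have hwA : w ∉ A := by simp [hA, hna]
  have hw'A : w' ∉ A := by
    have : ¬ H.Adj w' w := fun e => hna e.symm
    simp [hA, this]
  have d1 : Disjoint B Y := by
    rw [Finset.disjoint_left]; intro x hx hx'
    simp only [hB, hY, Finset.mem_insert, Finset.mem_singleton, Finset.mem_filter] at hx hx'
    tauto
  have d2 : Disjoint A (B ∪ Y) := by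
    rw [Finset.disjoint_left]; intro x hx hx'
    rcases Finset.mem_union.1 hx' with hx' | hx'
    · simp only [hB, Finset.mem_insert, Finset.mem_singleton] at hx'
      rcases hx' with rfl | rfl
      · exact hwA hx
      · exact hw'A hx
    · exact (Finset.mem_filter.1 hx').2.2.2 (Finset.mem_filter.1 hx).2
  have hN : N = A ∪ (B ∪ Y) := by
    ext x
    simp only [hA, hB, hY, Finset.mem_union, Finset.mem_insert, Finset.mem_singleton,
      Finset.mem_filter]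
    constructor
    · intro hx; tauto
    · rintro (hx | (rfl | rfl) | hx)
      · exact hx.1
      · exact hw
      · exact hw'
      · exact hx.1
  have hAN : A ⊆ N := Finset.filter_subset _ _
  have hYN : Y ⊆ N := Finset.filter_subset _ _
  have hnb : ∀ u ∈ N, ∀ s ∈ S, R u s → ∃ z ∈ A, H.Adj u z := by
    intro u hu s hs hr
    by_cases e : s = s1
    · obtain ⟨z, hz, b1, b2, _⟩ := h.c2 s hs s2 hs2 (e ▸ hss) u hu w' hw' hr r2
      exact ⟨z, Finset.mem_filter.2 ⟨hz, Or.inr b2⟩, b1.symm⟩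
    · obtain ⟨z, hz, b1, b2, _⟩ := h.c2 s hs s1 hs1 e u hu w hw hr r1
      exact ⟨z, Finset.mem_filter.2 ⟨hz, Or.inl b2⟩, b1.symm⟩
  have split : ∀ g : V → ℕ, ∑ x ∈ N, g x = ∑ x ∈ A, g x + (∑ x ∈ B, g x + ∑ x ∈ Y, g x) := by
    intro g
    have : ∑ x ∈ N, g x = ∑ x ∈ A ∪ (B ∪ Y), g x := by rw [← hN]
    rw [this, Finset.sum_union d2, Finset.sum_union d1]
  have e1 : ∑ x ∈ A, dg H x B ≤ ∑ x ∈ B, dg H x N := by
    rw [sum_dg_comm H B N]
    exact Finset.sum_le_sum_of_subset hAN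
  have e2 : ∑ x ∈ A, dg H x N = ∑ x ∈ A, dg H x A + (∑ x ∈ A, dg H x B + ∑ x ∈ Y, dg H x A) := by
    rw [sum_dg_comm H Y A, ← Finset.sum_add_distrib, ← Finset.sum_add_distrib]
    refine Finset.sum_congr rfl fun x _ => ?_
    have : dg H x N = dg H x (A ∪ (B ∪ Y)) := by rw [← hN]
    rw [this, dg_union H x d2, dg_union H x d1]
  set mu : V → ℕ := fun x => if ∃ s ∈ S, R x s then 1 else 0 with hmu
  have e3 : 4 * (N.filter (fun u => ∃ s ∈ S, R u s)).card + N.card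
      = ∑ x ∈ N, (4 * mu x + 1) := by
    rw [Finset.sum_add_distrib, ← Finset.mul_sum, Finset.card_filter]
    simp [hmu]
  have e4 : ∑ x ∈ B, (4 * mu x + 1) = 10 := by
    rw [hB, Finset.sum_pair hww]
    have m1 : mu w = 1 := if_pos ⟨s1, hs1, r1⟩
    have m2 : mu w' = 1 := if_pos ⟨s2, hs2, r2⟩
    rw [m1, m2]
  set lam : V → ℕ := fun y => if ∃ z, Leaf H N S R y z then 1 else 0 with hlam
  set ell : V → ℕ := fun a => if ∃ y ∈ Y, Leaf H N S R y a then 1 else 0 with hell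
  have e5 : ∑ y ∈ Y, lam y ≤ ∑ a ∈ A, ell a := by
    rw [hlam, hell, ← Finset.card_filter, ← Finset.card_filter]
    refine Finset.card_le_card_of_forall_subsingleton (fun y a => Leaf H N S R y a) ?_ ?_
    · intro y hy
      obtain ⟨hy, z, hz⟩ := Finset.mem_filter.1 hy
      obtain ⟨s, hs, hr⟩ := hz.2.1
      obtain ⟨z', hz', ha⟩ := hnb y hz.1 s hs hr
      have := hz.2.2.2.2 z' (hAN hz') ha
      subst this
      exact ⟨z', Finset.mem_filter.2 ⟨hz', y, hy, hz⟩, hz⟩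
    · intro a _ y hy y' hy'
      exact h.lf3 hy.2 hy'.2
  have e6 : ∀ y ∈ Y, 4 * mu y + 1 ≤ 2 * (dg H y A + dg H y N) + lam y := by
    intro y hy
    have hyN := hYN hy
    obtain ⟨z, hz, ha⟩ := h.p0 y hyN
    have f1 := one_le_dg hz ha
    by_cases hm : ∃ s ∈ S, R y s
    · have m1 : mu y = 1 := if_pos hm
      obtain ⟨s, hs, hr⟩ := hm
      obtain ⟨z', hz', ha'⟩ := hnb y hyN s hs hr
      have f2 := one_le_dg hz' ha'
      by_cases hl : ∃ z, Leaf H N S R y z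
      · have : lam y = 1 := if_pos hl
        omega
      · have : 2 ≤ dg H y N := by
          by_contra hc
          refine hl ⟨z, hyN, ⟨s, hs, hr⟩, hz, ha, fun z2 hz2 ha2 => ?_⟩
          by_contra hne
          exact hc (two_le_dg hz2 hz ha2 ha hne)
        omega
    · have m1 : mu y = 0 := if_neg hm
      omega
  obtain ⟨z', hz'A, hgood, hz'0⟩ : ∃ z' ∈ A, (∀ s ∈ S, R z' s → s = s2) ∧ H.Adj z' w' := by
    obtain ⟨z', hz', b1, b2⟩ := h.c1 s2 hs2 w' hw' r2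
    exact ⟨z', Finset.mem_filter.2 ⟨hz', Or.inr b1⟩, b2, b1⟩
  have hwB : w ∈ B := by simp [hB]
  have hw'B : w' ∈ B := by simp [hB]
  have e7 : ∀ a ∈ A, 4 * mu a + 1 + ell a + (5 * (if a = z0 then 1 else 0) +
      (if a = z' then 1 else 0)) ≤ 2 * (2 * dg H a B + dg H a A) := by
    intro a ha
    have haN := hAN ha
    have f1 : 1 ≤ dg H a B := by
      rcases (Finset.mem_filter.1 ha).2 with b | b
      · exact one_le_dg hwB b
      · exact one_le_dg hw'B b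
    have f2 : ell a ≤ 1 := by simp only [hell]; split_ifs <;> omega
    have f3 : a = z0 → 2 ≤ dg H a B ∧ ell a = 0 := by
      rintro rfl
      refine ⟨two_le_dg hwB hw'B a1 a2 hww, if_neg ?_⟩
      rintro ⟨y, hy, hl⟩
      have := (Finset.mem_filter.1 hy).2
      rcases hnl y hl with e | e
      · exact this.1 e
      · exact this.2.1 e
    by_cases hm : ∃ s ∈ S, R a s
    · have m1 : mu a = 1 := if_pos hm
      obtain ⟨s, hs, hr⟩ := hm
      obtain ⟨z2, hz2, ha2⟩ := hnb a haN s hs hr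
      have f4 := one_le_dg hz2 ha2
      have f5 : a = z' → ell a = 0 ∨ 2 ≤ dg H a B := by
        rintro rfl
        by_cases hl : ∃ y ∈ Y, Leaf H N S R y a
        · right
          obtain ⟨y, _, hl⟩ := hl
          obtain ⟨s3, hs3, hr3⟩ := hl.2.1
          have q1 := h.lf1 hl hs3 hr3 s hs hr
          have q2 := hgood s hs hr
          have q3 : s1 ≠ s3 := by rw [← q1, q2]; exact hss
          exact two_le_dg hwB hw'B (h.lf2 hl hs3 hr3 s1 hs1 q3 w hw r1) hz'0 hww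
        · left; exact if_neg hl
      have f6 : a = z0 → a ≠ z' := by
        rintro rfl rfl
        exact hss ((hcl s hs hr).symm.trans (hgood s hs hr))
      split_ifs with g1 g2 g2
      · exact absurd g2 (f6 g1)
      · have := f3 g1; omega
      · have := f5 g2; omega
      · omega
    · have m1 : mu a = 0 := if_neg hm
      split_ifs with g1 g2 g2
      · have := f3 g1; omega
      · have := f3 g1; omega
      · omega
      · omega
  have hz0A : z0 ∈ A := Finset.mem_filter.2 ⟨hz0, Or.inl a1⟩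
  have e8 := Finset.sum_le_sum e7
  have e9 := Finset.sum_le_sum e6
  simp only [Finset.sum_add_distrib, ← Finset.mul_sum, Finset.sum_ite_eq', hz0A, hz'A,
    if_true] at e8 e9
  rw [e3, split (fun x => 4 * mu x + 1), split (fun x => dg H x N), e4, e2]
  simp only [Finset.sum_add_distrib, ← Finset.mul_sum]
  omega

lemma Sit.complete (h : Sit H N S R)
    (hc : ∀ s ∈ S, ∀ s' ∈ S, s ≠ s' → ∀ u ∈ N, ∀ u' ∈ N, R u s → R u' s' → H.Adj u u') :
    4 * (N.filter (fun u => ∃ s ∈ S, R u s)).card + N.card ≤ 2 * ∑ x ∈ N, dg H x N + 4 := by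
  obtain ⟨s1, hs1, s2, hs2, hss⟩ := h.two
  obtain ⟨w, hw, r1⟩ := h.ne s1 hs1
  obtain ⟨w', hw', r2⟩ := h.ne s2 hs2
  have hww : w ≠ w' := fun e => hss (h.uniq w hw s1 hs1 s2 hs2 r1 (e ▸ r2))
  set M := N.filter (fun u => ∃ s ∈ S, R u s) with hM
  set N1 := M.filter (fun u => R u s1) with hN1
  set N2 := M.filter (fun u => ¬ R u s1) with hN2
  have hM12 : N1.card + N2.card = M.card := Finset.card_filter_add_card_filter_not _
  -- degree of a vertex of class s: one neighbour not in another class, plus the set T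
  have key : ∀ u ∈ N, ∀ s ∈ S, R u s → ∀ T : Finset V,
      (∀ x ∈ T, x ∈ N ∧ ∃ s' ∈ S, s' ≠ s ∧ R x s') → T.card + 1 ≤ dg H u N := by
    intro u hu s hs hr T hT
    obtain ⟨z, hz, b1, b2⟩ := h.c1 s hs u hu hr
    have hzT : z ∉ T := by
      intro hzT
      obtain ⟨_, s', hs', hne, hr'⟩ := hT z hzT
      exact hne (b2 s' hs' hr')
    rw [← Finset.card_insert_of_notMem hzT]
    refine Finset.card_le_card fun x hx => ?_
    rcases Finset.mem_insert.1 hx with rfl | hx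
    · exact Finset.mem_filter.2 ⟨hz, b1.symm⟩
    · obtain ⟨hxN, s', hs', hne, hr'⟩ := hT x hx
      exact Finset.mem_filter.2 ⟨hxN, hc s hs s' hs' hne.symm u hu x hxN hr hr'⟩
  have k1 : N2.card + 1 ≤ dg H w N := by
    refine key w hw s1 hs1 r1 N2 fun x hx => ?_
    obtain ⟨hx1, hx2⟩ := Finset.mem_filter.1 hx
    obtain ⟨hxN, s', hs', hr'⟩ := Finset.mem_filter.1 hx1
    exact ⟨hxN, s', hs', fun e => hx2 (e ▸ hr'), hr'⟩
  have k2 : N1.card + 1 ≤ dg H w' N := by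
    refine key w' hw' s2 hs2 r2 N1 fun x hx => ?_
    obtain ⟨hx1, hx2⟩ := Finset.mem_filter.1 hx
    exact ⟨(Finset.mem_filter.1 hx1).1, s1, hs1, hss, hx2⟩
  set mu : V → ℕ := fun x => if ∃ s ∈ S, R x s then 1 else 0 with hmu
  have k3 : ∀ x ∈ N, mu x + 1 ≤ dg H x N := by
    intro x hx
    by_cases hm : ∃ s ∈ S, R x s
    · have m1 : mu x = 1 := if_pos hm
      obtain ⟨s, hs, hr⟩ := hm
      by_cases e : s = s1
      · have := key x hx s hs hr {w'} (by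
          intro y hy; rw [Finset.mem_singleton.1 hy]; exact ⟨hw', s2, hs2, e ▸ hss.symm, r2⟩)
        simp only [Finset.card_singleton] at this
        omega
      · have := key x hx s hs hr {w} (by
          intro y hy; rw [Finset.mem_singleton.1 hy]; exact ⟨hw, s1, hs1, Ne.symm e, r1⟩)
        simp only [Finset.card_singleton] at this
        omega
    · have m1 : mu x = 0 := if_neg hm
      obtain ⟨z, hz, ha⟩ := h.p0 x hx
      have := one_le_dg hz ha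
      omega
  have m1 : mu w = 1 := if_pos ⟨s1, hs1, r1⟩
  have m2 : mu w' = 1 := if_pos ⟨s2, hs2, r2⟩
  have hw'e : w' ∈ N.erase w := Finset.mem_erase.2 ⟨hww.symm, hw'⟩
  have sp : ∀ g : V → ℕ, ∑ x ∈ N, g x = g w + (g w' + ∑ x ∈ (N.erase w).erase w', g x) := by
    intro g
    rw [Finset.add_sum_erase _ _ hw'e, Finset.add_sum_erase _ _ hw]
  have k4 : ∑ x ∈ (N.erase w).erase w', (mu x + 1) ≤ ∑ x ∈ (N.erase w).erase w', dg H x N :=
    Finset.sum_le_sum fun x hx =>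
      k3 x (Finset.mem_of_mem_erase (Finset.mem_of_mem_erase hx))
  have k5 : M.card + N.card = ∑ x ∈ N, (mu x + 1) := by
    rw [Finset.sum_add_distrib, hM, Finset.card_filter]
    simp [hmu]
  rw [sp (fun x => mu x + 1)] at k5
  rw [sp (fun x => dg H x N)]
  omega

lemma Sit.bound (h : Sit H N S R) :
    4 * (N.filter (fun u => ∃ s ∈ S, R u s)).card + N.card ≤ 2 * ∑ x ∈ N, dg H x N + 4 := by
  by_cases hl : ∃ y z, Leaf H N S R y z
  · obtain ⟨w, z0, hl⟩ := hl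
    obtain ⟨s1, hs1, r1⟩ := hl.2.1
    obtain ⟨s2, hs2, hss⟩ : ∃ s2 ∈ S, s1 ≠ s2 := by
      obtain ⟨a, ha, b, hb, hab⟩ := h.two
      by_cases e : s1 = a
      · exact ⟨b, hb, e ▸ hab⟩
      · exact ⟨a, ha, e⟩
    obtain ⟨w', hw', r2⟩ := h.ne s2 hs2
    have hcl := h.lf1 hl hs1 r1
    refine h.core hl.1 hw' hs1 hs2 hss r1 r2 (fun e => ?_) hl.2.2.1 hl.2.2.2.1.symm
      (h.lf2 hl hs1 r1 s2 hs2 hss.symm w' hw' r2) hcl (fun y hy => Or.inl (h.lf3 hy hl))
    have := hl.2.2.2.2 w' hw' e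
    exact hss (hcl s2 hs2 (this ▸ r2)).symm
  · by_cases hc : ∀ s ∈ S, ∀ s' ∈ S, s ≠ s' → ∀ u ∈ N, ∀ u' ∈ N, R u s → R u' s' → H.Adj u u'
    · exact h.complete hc
    · push Not at hc
      obtain ⟨s1, hs1, s2, hs2, hss, w, hw, w', hw', r1, r2, hna⟩ := hc
      obtain ⟨z0, hz0, a1, a2, hcl⟩ := h.c2 s1 hs1 s2 hs2 hss w hw w' hw' r1 r2
      by_cases e : R z0 s2
      · exact h.core hw' hw hs2 hs1 hss.symm r2 r1 (fun e => hna e.symm) hz0 a2 a1
          (fun s hs hr => h.uniq z0 hz0 s hs s2 hs2 hr e) (fun y hy => absurd ⟨y, z0, hy⟩ hl)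
      · refine h.core hw hw' hs1 hs2 hss r1 r2 hna hz0 a1 a2
          (fun s hs hr => ?_) (fun y hy => absurd ⟨y, z0, hy⟩ hl)
        rcases hcl s hs hr with q | q
        · exact q
        · exact absurd (q ▸ hr) e

end

end Pool.Agent.Lib.MP_3ecb7c_co
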