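import Pool.Agent.Lib.MP_3ecb7c_co.Upper

namespace Pool.Agent.Lib.MP_3ecb7c_co

open Finset
open scoped Classical

noncomputable section

def Has (n k m : ℕ) : Prop :=
  ∃ (V : Type) (_ : Fintype V) (G : SimpleGraph V),
    Fintype.card V = n ∧ Low G k ∧ Crit G k ∧ PD G ∧ E G = m

section general

variable {V : Type} [Fintype V] {G : SimpleGraph V}

lemma through {k : ℕ} (hk : 2 ≤ k) (hlow : Low G k) (hcrit : Crit G k) (x : V) :
    ∃ D : Finset V, D.card ≤ k ∧ x ∈ D ∧ ∀ v, v ∈ D ∨ ∃ u ∈ D, G.Adj v u := by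
  obtain ⟨y, hy⟩ := hlow.undom {x} (by simp; omega)
  obtain ⟨h1, h2⟩ := hy x (by simp)
  obtain ⟨D, hD, hdom⟩ := hcrit y x h1 h2
  by_cases hx : x ∈ D
  · refine ⟨insert y D, le_trans (Finset.card_insert_le _ _) hD, by simp [hx], fun v => ?_⟩
    rcases hdom v with h | ⟨u, hu, h⟩ | h | h
    · left; simp [h]
    · right; exact ⟨u, by simp [hu], h⟩
    · left; simp [h.1]
    · left; simp [h.1, hx]
  · refine ⟨insert x D, le_trans (Finset.card_insert_le _ _) hD, by simp, fun v => ?_⟩
    rcases hdom v with h | ⟨u, hu, h⟩ | h | h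
    · left; simp [h]
    · right; exact ⟨u, by simp [hu], h⟩
    · exact absurd h.2 hx
    · left; simp [h.1]

lemma E_eq (G : SimpleGraph V) : E G = ∑ x, ∑ y, if G.Adj x y then 1 else 0 := by
  unfold E; simp only [dg_eq_sum]

lemma E_compl (H : SimpleGraph V) :
    E H + E Hᶜ + Fintype.card V = Fintype.card V * Fintype.card V := by
  have : ∑ x : V, (dg H x univ + dg Hᶜ x univ + 1) = ∑ _x : V, Fintype.card V :=
    Finset.sum_congr rfl fun x _ => by
      rw [dg_add_compl (Finset.mem_univ x), Finset.card_univ]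
  simp only [Finset.sum_add_distrib, Finset.sum_const, Finset.card_univ, smul_eq_mul,
    mul_one] at this
  exact this

omit [Fintype V] in
lemma low3 [Nonempty V] {H : SimpleGraph V} (h : ∀ x y, ∃ z, H.Adj z x ∧ H.Adj z y) :
    Low Hᶜ 3 := by
  intro D hdom
  by_contra hc
  obtain ⟨x, y, hxy⟩ : ∃ x y, ∀ u ∈ D, u = x ∨ u = y := by
    have : D.card = 0 ∨ D.card = 1 ∨ D.card = 2 := by omega
    rcases this with e | e | e
    · obtain ⟨x⟩ := ‹Nonempty V›
      rw [Finset.card_eq_zero.1 e]; exact ⟨x, x, by simp⟩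
    · obtain ⟨x, rfl⟩ := Finset.card_eq_one.1 e
      exact ⟨x, x, by simp⟩
    · obtain ⟨x, y, _, rfl⟩ := Finset.card_eq_two.1 e
      exact ⟨x, y, by simp⟩
  obtain ⟨z, a1, a2⟩ := h x y
  rcases hdom z with g | ⟨u, hu, g⟩
  · rcases hxy z g with e | e
    · exact a1.ne e
    · exact a2.ne e
  · rw [SimpleGraph.compl_adj] at g
    rcases hxy u hu with e | e
    · exact g.2 (e ▸ a1)
    · exact g.2 (e ▸ a2)

omit [Fintype V] in
lemma crit3 {H : SimpleGraph V} (h : ∀ a b, H.Adj a b →
    ∃ y, (∀ z, H.Adj z a → H.Adj z y → z = b) ∨ (∀ z, H.Adj z b → H.Adj z y → z = a)) :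
    Crit Hᶜ 3 := by
  intro a b hab hn
  have hadj : H.Adj a b := by
    by_contra hc; exact hn ((H.compl_adj a b).2 ⟨hab, hc⟩)
  have aux : ∀ x y u v : V, (∀ z, H.Adj z x → H.Adj z y → z = u) →
      v ∈ ({x, y} : Finset V) ∨ (∃ w ∈ ({x, y} : Finset V), Hᶜ.Adj v w) ∨ v = u := by
    intro x y u v hu
    by_cases e1 : v = x
    · left; simp [e1]
    by_cases e2 : v = y
    · left; simp [e2]
    by_cases e3 : H.Adj v x
    · by_cases e4 : H.Adj v y
      · exact Or.inr (Or.inr (hu v e3 e4))
      · exact Or.inr (Or.inl ⟨y, by simp, (H.compl_adj v y).2 ⟨e2, e4⟩⟩)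
    · exact Or.inr (Or.inl ⟨x, by simp, (H.compl_adj v x).2 ⟨e1, e3⟩⟩)
  obtain ⟨y, hy | hy⟩ := h a b hadj
  · refine ⟨{a, y}, lt_of_le_of_lt Finset.card_le_two (by omega), fun v => ?_⟩
    rcases aux a y b v hy with g | g | g
    · exact Or.inl g
    · exact Or.inr (Or.inl g)
    · exact Or.inr (Or.inr (Or.inr ⟨g, by simp⟩))
  · refine ⟨{b, y}, lt_of_le_of_lt Finset.card_le_two (by omega), fun v => ?_⟩
    rcases aux b y a v hy with g | g | g
    · exact Or.inl g
    · exact Or.inr (Or.inl g)
    · exact Or.inr (Or.inr (Or.inl ⟨g, by simp⟩))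

omit [Fintype V] in
lemma pd_compl {H : SimpleGraph V} (h : ∀ a b, (∀ z, H.Adj a z ↔ H.Adj b z) → a = b) :
    PD Hᶜ := by
  intro a b hab
  refine h a b fun z => ?_
  have := hab z
  simp only [SimpleGraph.compl_adj] at this
  constructor
  · intro g; by_contra g'
    have q : z = b ∨ (b ≠ z ∧ ¬ H.Adj b z) := by
      by_cases e : z = b
      · exact Or.inl e
      · exact Or.inr ⟨Ne.symm e, g'⟩
    rcases this.2 q with e | e
    · exact g.ne e.symm
    · exact e.2 g
  · intro g; by_contra g'
    have q : z = a ∨ (a ≠ z ∧ ¬ H.Adj a z) := by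
      by_cases e : z = a
      · exact Or.inl e
      · exact Or.inr ⟨Ne.symm e, g'⟩
    rcases this.1 q with e | e
    · exact g.ne e.symm
    · exact e.2 g

/-- add an isolated vertex -/
def addIso (G : SimpleGraph V) : SimpleGraph (Option V) where
  Adj a b := match a, b with
    | some x, some y => G.Adj x y
    | _, _ => False
  symm := ⟨fun a b h => by
    cases a <;> cases b <;> first | exact h | exact G.adj_symm h⟩
  loopless := ⟨fun a h => by
    cases a
    · exact h
    · exact G.irrefl h⟩

end general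

lemma Has.succ {n k m : ℕ} (hk : 2 ≤ k) (h : Has n k m) : Has (n + 1) (k + 1) m := by
  obtain ⟨V, _, G, hc, hlow, hcrit, hpd, hE⟩ := h
  have a1 : ∀ x y, (addIso G).Adj (some x) (some y) ↔ G.Adj x y := fun _ _ => Iff.rfl
  have a2 : ∀ x, ¬ (addIso G).Adj none x := fun x h => by cases x <;> exact h
  have a3 : ∀ x, ¬ (addIso G).Adj x none := fun x h => by cases x <;> exact h
  refine ⟨Option V, inferInstance, addIso G, by simp [hc], ?_, ?_, ?_, ?_⟩
  · intro D hdom
    have hn : none ∈ D := by
      rcases hdom none with h | ⟨u, _, h⟩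
      · exact h
      · exact absurd h (a2 u)
    have := hlow (Finset.eraseNone D) (fun v => by
      rcases hdom (some v) with h | ⟨u, hu, h⟩
      · left; exact Finset.mem_eraseNone.2 h
      · cases u with
        | none => exact absurd h (a3 _)
        | some u => right; exact ⟨u, Finset.mem_eraseNone.2 hu, h⟩)
    rw [Finset.card_eraseNone_of_mem hn] at this
    omega
  · have one : ∀ x : V, ∃ D : Finset (Option V), D.card < k + 1 ∧ some x ∈ D ∧
        ∀ v, some v ∈ D ∨ ∃ u ∈ D, (addIso G).Adj (some v) u := by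
      intro x
      obtain ⟨D, hD, hx, hdom⟩ := through hk hlow hcrit x
      refine ⟨D.map Function.Embedding.some, by rw [Finset.card_map]; omega,
        Finset.mem_map_of_mem _ hx, fun v => ?_⟩
      rcases hdom v with h | ⟨u, hu, h⟩
      · left; exact Finset.mem_map_of_mem _ h
      · right; exact ⟨some u, Finset.mem_map_of_mem _ hu, h⟩
    intro a b hab hn
    cases a with
    | none =>
      cases b with
      | none => exact absurd rfl hab
      | some b =>
        obtain ⟨D, hD, hx, hdom⟩ := one b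
        refine ⟨D, hD, fun v => ?_⟩
        cases v with
        | none => exact Or.inr (Or.inr (Or.inl ⟨rfl, hx⟩))
        | some v => rcases hdom v with h | h
                    · exact Or.inl h
                    · exact Or.inr (Or.inl h)
    | some a =>
      cases b with
      | none =>
        obtain ⟨D, hD, hx, hdom⟩ := one a
        refine ⟨D, hD, fun v => ?_⟩
        cases v with
        | none => exact Or.inr (Or.inr (Or.inr ⟨rfl, hx⟩))
        | some v => rcases hdom v with h | h
                    · exact Or.inl h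
                    · exact Or.inr (Or.inl h)
      | some b =>
        obtain ⟨D, hD, hdom⟩ := hcrit a b (fun e => hab (by rw [e])) hn
        refine ⟨Finset.insertNone D, by rw [Finset.card_insertNone]; omega, fun v => ?_⟩
        cases v with
        | none => left; simp
        | some v =>
          rcases hdom v with h | ⟨u, hu, h⟩ | h | h
          · left; simpa using h
          · right; left; exact ⟨some u, by simpa using hu, h⟩
          · right; right; left; exact ⟨by rw [h.1], by simpa using h.2⟩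
          · right; right; right; exact ⟨by rw [h.1], by simpa using h.2⟩
  · intro a b h
    cases a with
    | none =>
      rcases (h none).1 (Or.inl rfl) with e | e
      · exact e
      · exact absurd e (a3 _)
    | some a =>
      cases b with
      | none =>
        rcases (h none).2 (Or.inl rfl) with e | e
        · exact e.symm
        · exact absurd e (a3 _)
      | some b =>
        congr 1
        refine hpd a b fun x => ?_
        have := h (some x)
        simpa [a1] using this
  · rw [← hE, E_eq, E_eq]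
    simp only [Fintype.sum_option, a1, a2, a3, if_false, Finset.sum_const_zero, zero_add]

lemma Has.add {n k m : ℕ} (hk : 2 ≤ k) (h : Has n k m) (i : ℕ) : Has (n + i) (k + i) m := by
  induction i with
  | zero => exact h
  | succ i ih => exact ih.succ (le_trans hk (Nat.le_add_right _ _))

/-- cocktail party graph -/
def cp (m : ℕ) : SimpleGraph (Fin m × Bool) where
  Adj x y := x.1 ≠ y.1
  symm := ⟨fun _ _ h => h.symm⟩
  loopless := ⟨fun _ h => h rfl⟩

lemma has_cp (s : ℕ) : Has (2 + 2 * s) 2 (2 * s * (2 * s + 2)) := by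
  have a1 : ∀ x y, (cp (s + 1)).Adj x y ↔ x.1 ≠ y.1 := fun _ _ => Iff.rfl
  refine ⟨Fin (s + 1) × Bool, inferInstance, cp (s + 1), by simp; ring, ?_, ?_, ?_, ?_⟩
  · intro D hdom
    by_contra hc
    have one := Finset.card_le_one.1 (show D.card ≤ 1 by omega)
    obtain ⟨x, hx⟩ : ∃ x, x ∈ D := by
      rcases hdom (0, true) with h | ⟨u, hu, _⟩
      · exact ⟨_, h⟩
      · exact ⟨_, hu⟩
    rcases hdom (x.1, !x.2) with h | ⟨u, hu, h⟩
    · have := congrArg Prod.snd (one _ h _ hx)
      simp at this
    · rw [one u hu x hx] at h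
      exact h rfl
  · intro a b hab hn
    refine ⟨{a}, by simp, fun v => ?_⟩
    have hn' : a.1 = b.1 := by simpa [a1] using hn
    by_cases e : v.1 = a.1
    · by_cases e2 : v.2 = a.2
      · left; simp [Prod.ext_iff, e, e2]
      · right; right; right
        refine ⟨Prod.ext (e.trans hn') ?_, by simp⟩
        have : a.2 ≠ b.2 := fun h => hab (Prod.ext hn' h)
        revert e2 this
        cases v.2 <;> cases a.2 <;> cases b.2 <;> simp
    · right; left; exact ⟨a, by simp, e⟩
  · intro a b h
    have h1 := (h (a.1, !a.2)).2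
    have h2 := (h a).1 (Or.inl rfl)
    simp only [a1, Prod.ext_iff] at h1 h2
    rcases h2 with h2 | h2
    · exact Prod.ext h2.1 h2.2
    · have := h1 (Or.inr h2)
      simp at this
  · rw [E_eq]
    have : ∀ i : Fin (s + 1), ∑ j : Fin (s + 1), (if i ≠ j then 1 else 0) = s := by
      intro i
      rw [← Finset.card_filter, Finset.filter_ne, Finset.card_erase_of_mem (Finset.mem_univ _)]
      simp
    simp only [Fintype.sum_prod_type, a1, Fintype.sum_bool, Finset.sum_add_distrib]
    simp only [this, Finset.sum_const, Finset.card_univ, Fintype.card_fin, smul_eq_mul]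
    ring

/-- corona of a complete graph -/
def cor (t : ℕ) : SimpleGraph (Fin t × Bool) where
  Adj x y := (x.1 = y.1 ∧ x.2 ≠ y.2) ∨ (x.1 ≠ y.1 ∧ x.2 = false ∧ y.2 = false)
  symm := ⟨fun _ _ h => by
    rcases h with h | h
    · exact Or.inl ⟨h.1.symm, h.2.symm⟩
    · exact Or.inr ⟨h.1.symm, h.2.2, h.2.1⟩⟩
  loopless := ⟨fun _ h => by
    rcases h with h | h
    · exact h.2 rfl
    · exact h.1 rfl⟩

lemma has_cor (t : ℕ) (ht : 3 ≤ t) : Has (t + t) t (t * (t + 1)) := by
  have a1 : ∀ x y, (cor t).Adj x y ↔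
      (x.1 = y.1 ∧ x.2 ≠ y.2) ∨ (x.1 ≠ y.1 ∧ x.2 = false ∧ y.2 = false) := fun _ _ => Iff.rfl
  refine ⟨Fin t × Bool, inferInstance, cor t, by simp; ring, ?_, ?_, ?_, ?_⟩
  · intro D hdom
    have : (univ : Finset (Fin t)) ⊆ D.image Prod.fst := by
      intro i _
      rcases hdom (i, true) with h | ⟨u, hu, h⟩
      · exact Finset.mem_image.2 ⟨_, h, rfl⟩
      · rw [a1] at h
        rcases h with h | h
        · exact Finset.mem_image.2 ⟨_, hu, h.1.symm⟩
        · simp at h
    have h2 := (Finset.card_le_card this).trans Finset.card_image_le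
    simpa using h2
  · have main : ∀ a : Fin t × Bool, ∀ j : Fin t, a.1 ≠ j →
        ∃ D : Finset (Fin t × Bool), D.card < t ∧ a ∈ D ∧
          ∀ v, v ∈ D ∨ (∃ u ∈ D, (cor t).Adj v u) ∨ v = (j, true) := by
      intro a j hj
      have hcard : ((univ.erase a.1).erase j).card = t - 2 := by
        rw [Finset.card_erase_of_mem (by simp [hj.symm]), Finset.card_erase_of_mem (by simp)]
        simp; omega
      obtain ⟨l, hl⟩ := Finset.card_pos.1 (show 0 < ((univ.erase a.1).erase j).card by omega)
      refine ⟨insert a (((univ.erase a.1).erase j).image (fun l => (l, false))), ?_, by simp,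
        fun v => ?_⟩
      · have h1 := Finset.card_insert_le a
          (((univ.erase a.1).erase j).image (fun l => (l, false)))
        have h2 := Finset.card_image_le (s := (univ.erase a.1).erase j) (f := fun l => (l, false))
        omega
      · obtain ⟨i, c⟩ := v
        by_cases e1 : i = a.1
        · by_cases e2 : c = a.2
          · left; simp [Prod.ext_iff, e1, e2]
          · right; left; exact ⟨a, by simp, Or.inl ⟨e1, e2⟩⟩
        · by_cases e3 : i = j
          · cases c
            · right; left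
              refine ⟨(l, false), Finset.mem_insert_of_mem (Finset.mem_image_of_mem _ hl),
                Or.inr ⟨?_, rfl, rfl⟩⟩
              have := (Finset.mem_erase.1 hl).1
              exact fun e => this (e.symm.trans e3)
            · right; right; rw [e3]
          · have hi : (i, false) ∈ insert a
                (((univ.erase a.1).erase j).image (fun l => (l, false))) :=
              Finset.mem_insert_of_mem (Finset.mem_image_of_mem _ (by simp [e1, e3]))
            cases c
            · exact Or.inl hi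
            · right; left; exact ⟨_, hi, Or.inl ⟨rfl, by simp⟩⟩
    intro a b hab hn
    rw [a1] at hn
    have h1 : a.1 ≠ b.1 := by
      intro e
      by_cases e2 : a.2 = b.2
      · exact hab (Prod.ext e e2)
      · exact hn (Or.inl ⟨e, e2⟩)
    by_cases hb : b.2 = true
    · obtain ⟨D, hD, ha, hdom⟩ := main a b.1 h1
      refine ⟨D, hD, fun v => ?_⟩
      rcases hdom v with h | h | h
      · exact Or.inl h
      · exact Or.inr (Or.inl h)
      · exact Or.inr (Or.inr (Or.inr ⟨by rw [h, ← hb], ha⟩))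
    · have ha2 : a.2 = true := by
        by_contra hc
        exact hn (Or.inr ⟨h1, by simpa using hc, by simpa using hb⟩)
      obtain ⟨D, hD, ha, hdom⟩ := main b a.1 h1.symm
      refine ⟨D, hD, fun v => ?_⟩
      rcases hdom v with h | h | h
      · exact Or.inl h
      · exact Or.inr (Or.inl h)
      · exact Or.inr (Or.inr (Or.inl ⟨by rw [h, ← ha2], ha⟩))
  · rintro ⟨i, c⟩ ⟨j, d⟩ h
    have h1 := h (i, true)
    have hij : i = j := by
      cases c <;> cases d <;> simp [a1] at h1 <;> first | exact h1 | exact h1.symm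
    subst hij
    obtain ⟨l, hl⟩ : ∃ l : Fin t, l ≠ i := by
      have : Nontrivial (Fin t) := Fin.nontrivial_iff_two_le.2 (by omega)
      exact exists_ne i
    have h2 := h (l, false)
    cases c <;> cases d <;> simp [a1, hl, hl.symm] at h2 ⊢
  · rw [E_eq]
    have h2 : ∀ i : Fin t, ∑ j : Fin t, (if i = j then 1 else 0) = 1 := by
      intro i; simp
    have h3 : ∀ i : Fin t, ∑ j : Fin t, (if ¬ i = j then 1 else 0) = t - 1 := by
      intro i
      rw [← Finset.card_filter, Finset.filter_ne, Finset.card_erase_of_mem (Finset.mem_univ _)]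
      simp
    simp only [Fintype.sum_prod_type, a1, Fintype.sum_bool]
    simp only [ne_eq, not_true_eq_false, and_false, Bool.true_eq_false, or_self, if_false,
      not_false_eq_true, and_true, or_false, zero_add, Bool.false_eq_true, false_or,
      and_self, Finset.sum_add_distrib]
    simp only [h2, h3, Finset.sum_const, Finset.card_univ, Fintype.card_fin, smul_eq_mul]
    obtain ⟨s, rfl⟩ : ∃ s, t = s + 1 := ⟨t - 1, by omega⟩
    simp only [Nat.add_sub_cancel]
    ring

abbrev T3 (j d : ℕ) : Type := Bool ⊕ (((Fin j ⊕ Fin d) × Bool) ⊕ (Fin j × Bool))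

/-- the complement of the extremal graph with domination number three -/
def h3 (j d : ℕ) : SimpleGraph (T3 j d) where
  Adj x y := match x, y with
    | .inl _, .inl _ => False
    | .inl _, .inr (.inl _) => True
    | .inl b, .inr (.inr _) => b = true
    | .inr (.inl _), .inl _ => True
    | .inr (.inr _), .inl b => b = true
    | .inr (.inl a), .inr (.inl a') => a.1 = a'.1 ∧ a.2 ≠ a'.2
    | .inr (.inl a), .inr (.inr l) => a.1 = .inl l.1 ∧ a.2 = l.2
    | .inr (.inr l), .inr (.inl a) => a.1 = .inl l.1 ∧ a.2 = l.2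
    | .inr (.inr _), .inr (.inr _) => False
  symm := ⟨fun x y h => by
    rcases x with x | x | x <;> rcases y with y | y | y <;>
      first | exact h | exact ⟨h.1.symm, h.2.symm⟩⟩
  loopless := ⟨fun x h => by
    rcases x with x | x | x
    · exact h
    · exact h.2 rfl
    · exact h⟩

lemma has_three (j d : ℕ) (hj : 1 ≤ j) :
    ∃ m, m + (18 * j + 10 * d) + (2 + 4 * j + 2 * d) = (2 + 4 * j + 2 * d) * (2 + 4 * j + 2 * d) ∧
      Has (2 + 4 * j + 2 * d) 3 m := by
  have b1 : ∀ b c, (h3 j d).Adj (.inl b) (.inl c) ↔ False := fun _ _ => Iff.rfl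
  have b2 : ∀ b a, (h3 j d).Adj (.inl b) (.inr (.inl a)) ↔ True := fun _ _ => Iff.rfl
  have b3 : ∀ b l, (h3 j d).Adj (.inl b) (.inr (.inr l)) ↔ b = true := fun _ _ => Iff.rfl
  have b4 : ∀ b a, (h3 j d).Adj (.inr (.inl a)) (.inl b) ↔ True := fun _ _ => Iff.rfl
  have b5 : ∀ b l, (h3 j d).Adj (.inr (.inr l)) (.inl b) ↔ b = true := fun _ _ => Iff.rfl
  have b6 : ∀ a a', (h3 j d).Adj (.inr (.inl a)) (.inr (.inl a')) ↔ a.1 = a'.1 ∧ a.2 ≠ a'.2 :=
    fun _ _ => Iff.rfl
  have b7 : ∀ a l, (h3 j d).Adj (.inr (.inl a)) (.inr (.inr l)) ↔ a.1 = .inl l.1 ∧ a.2 = l.2 :=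
    fun _ _ => Iff.rfl
  have b8 : ∀ a l, (h3 j d).Adj (.inr (.inr l)) (.inr (.inl a)) ↔ a.1 = .inl l.1 ∧ a.2 = l.2 :=
    fun _ _ => Iff.rfl
  have b9 : ∀ l l', (h3 j d).Adj (.inr (.inr l)) (.inr (.inr l')) ↔ False := fun _ _ => Iff.rfl
  have hcard : Fintype.card (T3 j d) = 2 + 4 * j + 2 * d := by simp [T3]; ring
  let i0 : Fin j := ⟨0, hj⟩
  have hE : E (h3 j d) = 18 * j + 10 * d := by
    rw [E_eq]
    simp only [T3, Fintype.sum_sum_type, Fintype.sum_prod_type, Fintype.sum_bool, b1, b2, b3, b4,
      b5, b6, b7, b8, b9]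
    simp
    ring
  refine ⟨E (h3 j d)ᶜ, ?_, T3 j d, inferInstance, (h3 j d)ᶜ, hcard, low3 ?_, crit3 ?_,
    pd_compl ?_, rfl⟩
  · have := E_compl (h3 j d)
    rw [hE, hcard] at this
    omega
  · have nbA : ∀ y : T3 j d, ∃ a, (h3 j d).Adj (.inr (.inl a)) y := by
      rintro (y | y | y)
      · exact ⟨(.inl i0, true), trivial⟩
      · exact ⟨(y.1, !y.2), rfl, by simp⟩
      · exact ⟨(.inl y.1, y.2), rfl, rfl⟩
    rintro (x | x) y
    · obtain ⟨a, ha⟩ := nbA y
      exact ⟨_, (b4 x a).2 trivial, ha⟩
    · rcases y with y | y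
      · obtain ⟨a, ha⟩ := nbA (.inr x)
        exact ⟨_, ha, (b4 y a).2 trivial⟩
      · refine ⟨.inl true, ?_, ?_⟩
        · rcases x with x | x
          · trivial
          · rfl
        · rcases y with y | y
          · trivial
          · rfl
  · have c : ∀ a b, (h3 j d).Adj a b → (∃ y, ∀ z, (h3 j d).Adj z a → (h3 j d).Adj z y → z = b) ∨
        (∃ y, ∀ z, (h3 j d).Adj z b → (h3 j d).Adj z y → z = a) := by
      have k1 : ∀ a : (Fin j ⊕ Fin d) × Bool, ∃ y, ∀ z, (h3 j d).Adj z (.inr (.inl a)) →
          (h3 j d).Adj z y → z = .inl true := by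
        rintro ⟨i | i, b⟩
        · refine ⟨.inr (.inr (i, b)), ?_⟩
          rintro (z | ⟨z, c⟩ | z) <;> simp [b3, b2, b6, b7, b9]
          intro e1 e2 _ e4; exact e2 e4
        · refine ⟨.inr (.inr (i0, b)), ?_⟩
          rintro (z | ⟨z, c⟩ | z) <;> simp [b3, b2, b6, b7, b9]
          intro e1 _ e3; rw [e1] at e3; simp at e3
      have k2 : ∀ a : (Fin j ⊕ Fin d) × Bool, ∃ y, ∀ z, (h3 j d).Adj z (.inl false) →
          (h3 j d).Adj z y → z = .inr (.inl a) := by
        rintro ⟨i | i, b⟩
        · refine ⟨.inr (.inr (i, b)), ?_⟩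
          rintro (z | ⟨z, c⟩ | z) <;> simp [b1, b4, b5, b7]
        · refine ⟨.inr (.inl (.inr i, !b)), ?_⟩
          rintro (z | ⟨z, c⟩ | z) <;> simp [b1, b4, b5, b6]
      have k3 : ∀ l : Fin j × Bool, ∃ y, ∀ z, (h3 j d).Adj z (.inr (.inr l)) →
          (h3 j d).Adj z y → z = .inl true := by
        rintro ⟨i, b⟩
        refine ⟨.inr (.inl (.inl i, b)), ?_⟩
        rintro (z | ⟨z, c⟩ | z) <;> simp [b2, b3, b6, b7, b9]
        intro _ e2 _; exact e2
      have k4 : ∀ a a' : (Fin j ⊕ Fin d) × Bool, a.1 = a'.1 ∧ a.2 ≠ a'.2 →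
          ∀ z, (h3 j d).Adj z (.inr (.inl a)) →
          (h3 j d).Adj z (.inl false) → z = .inr (.inl a') := by
        rintro ⟨i, b⟩ ⟨i', b'⟩ ⟨e1, e2⟩
        rintro (z | ⟨z, c⟩ | z) <;> simp [b1, b4, b5, b6]
        simp only at e1 e2
        intro e3 e4
        refine ⟨e3.trans e1, ?_⟩
        revert e2 e4; cases b <;> cases b' <;> cases c <;> simp
      have k5 : ∀ (a : (Fin j ⊕ Fin d) × Bool) (l : Fin j × Bool), a.1 = .inl l.1 ∧ a.2 = l.2 →
          ∀ z, (h3 j d).Adj z (.inr (.inr l)) →
          (h3 j d).Adj z (.inl false) → z = .inr (.inl a) := by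
        rintro ⟨i, b⟩ ⟨i', b'⟩ ⟨e1, e2⟩
        rintro (z | ⟨z, c⟩ | z) <;> simp [b1, b4, b5, b7, b9]
        simp only at e1 e2
        intro e3 e4
        exact ⟨e3.trans e1.symm, e4.trans e2.symm⟩
      rintro (x | x | x) (y | y | y) h
      · exact absurd h id
      · cases x
        · exact Or.inl (k2 y)
        · exact Or.inr (k1 y)
      · have : x = true := h
        subst this; exact Or.inr (k3 y)
      · cases y
        · exact Or.inr (k2 x)
        · exact Or.inl (k1 x)
      · exact Or.inl ⟨_, k4 x y h⟩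
      · exact Or.inr ⟨_, k5 x y h⟩
      · have : y = true := h
        subst this; exact Or.inl (k3 x)
      · exact Or.inl ⟨_, k5 y x h⟩
      · exact absurd h id
    intro a b h
    rcases c a b h with ⟨y, hy⟩ | ⟨y, hy⟩
    · exact ⟨y, Or.inl hy⟩
    · exact ⟨y, Or.inr hy⟩
  · rintro (x | x | x) (y | y | y) h
    · have := h (.inr (.inr (i0, true)))
      cases x <;> cases y <;> simp [b3] at this ⊢
    · have := h (.inl true); simp [b1, b4] at this
    · have := h (.inl true); simp [b1, b5] at this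
    · have := h (.inl true); simp [b1, b4] at this
    · have := (h (.inr (.inl (x.1, !x.2)))).1 ⟨rfl, by simp⟩
      rw [b6] at this
      obtain ⟨x1, x2⟩ := x
      obtain ⟨y1, y2⟩ := y
      simp only at this
      obtain ⟨rfl, e⟩ := this
      revert e; cases x2 <;> cases y2 <;> simp
    · have := h (.inl false); simp [b4, b5] at this
    · have := h (.inl true); simp [b1, b5] at this
    · have := h (.inl false); simp [b4, b5] at this
    · have := (h (.inr (.inl (.inl x.1, x.2)))).1 ⟨rfl, rfl⟩
      rw [b8] at this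
      obtain ⟨x1, x2⟩ := x
      obtain ⟨y1, y2⟩ := y
      simp at this
      simp [this.1, this.2]

end

end Pool.Agent.Lib.MP_3ecb7c_co
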