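import Mathlib

namespace Pool.Agent.Lib.MP_3ecb7c_co

/-- domination number: least size of a dominating set -/
noncomputable def domNum {n : ℕ} (G : SimpleGraph (Fin n)) : ℕ :=
  sInf {m | ∃ D : Finset (Fin n), D.card = m ∧ ∀ v, v ∉ D → ∃ u ∈ D, G.Adj v u}

/-- k-edge-critical -/
def EdgeCritical {n : ℕ} (G : SimpleGraph (Fin n)) (k : ℕ) : Prop :=
  domNum G = k ∧ ∀ u v, u ≠ v → ¬ G.Adj u v → domNum (G ⊔ SimpleGraph.edge u v) = k - 1

/-- point distinguishing: distinct vertices have distinct closed neighbourhoods -/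
def PointDist {n : ℕ} (G : SimpleGraph (Fin n)) : Prop :=
  ∀ u v, insert u (G.neighborSet u) = insert v (G.neighborSet v) → u = v

/-- the numbers of edges of the graphs in the class C(n,k) -/
def edgeCounts (n k : ℕ) : Set ℕ :=
  {m | ∃ G : SimpleGraph (Fin n), EdgeCritical G k ∧ PointDist G ∧ G.edgeSet.ncard = m}

end Pool.Agent.Lib.MP_3ecb7c_co
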