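import Pool.Agent.Lib.MP_3ecb7c_co.Defs
import Pool.Agent.Lib.MP_3ecb7c_co.Constr

namespace Pool.Agent.Lib.MP_3ecb7c_co

open Finset
open scoped Classical

noncomputable section

lemma Has.fin {n k m : ℕ} (h : Has n k m) :
    ∃ G : SimpleGraph (Fin n), Low G k ∧ Crit G k ∧ PD G ∧ E G = m := by
  obtain ⟨V, _, G, hc, hlow, hcrit, hpd, hE⟩ := h
  let e : Fin n ≃ V := (Fintype.equivFinOfCardEq hc).symm
  have a : ∀ x y, (G.comap e).Adj x y ↔ G.Adj (e x) (e y) := fun _ _ => Iff.rfl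
  refine ⟨G.comap e, ?_, ?_, ?_, ?_⟩
  · intro D hdom
    have := hlow (D.map e.toEmbedding) (fun v => by
      obtain ⟨x, rfl⟩ := e.surjective v
      rcases hdom x with h | ⟨u, hu, h⟩
      · left; exact Finset.mem_map_of_mem _ h
      · right; exact ⟨e u, Finset.mem_map_of_mem _ hu, h⟩)
    rwa [Finset.card_map] at this
  · intro x y hxy hn
    obtain ⟨D, hD, hdom⟩ := hcrit (e x) (e y) (fun h => hxy (e.injective h)) hn
    have mem : ∀ z, z ∈ D.map e.symm.toEmbedding ↔ e z ∈ D := by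
      intro z; simp [Finset.mem_map_equiv]
    refine ⟨D.map e.symm.toEmbedding, by rwa [Finset.card_map], fun v => ?_⟩
    rcases hdom (e v) with h | ⟨u, hu, h⟩ | h | h
    · left; exact (mem v).2 h
    · right; left
      obtain ⟨u', rfl⟩ := e.surjective u
      exact ⟨u', (mem u').2 hu, h⟩
    · right; right; left; exact ⟨e.injective h.1, (mem y).2 h.2⟩
    · right; right; right; exact ⟨e.injective h.1, (mem x).2 h.2⟩
  · intro x y h
    refine e.injective (hpd _ _ fun z => ?_)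
    obtain ⟨z', rfl⟩ := e.surjective z
    have := h z'
    simpa [a] using this
  · rw [← hE, E_eq, E_eq, ← e.sum_comp]
    refine Finset.sum_congr rfl fun x _ => ?_
    rw [← e.sum_comp]
    refine Finset.sum_congr rfl fun y _ => ?_
    simp only [a]

variable {n : ℕ}

lemma dom_iff (G : SimpleGraph (Fin n)) (D : Finset (Fin n)) :
    (∀ v, v ∉ D → ∃ u ∈ D, G.Adj v u) ↔ ∀ v, v ∈ D ∨ ∃ u ∈ D, G.Adj v u :=
  forall_congr' fun _ => or_iff_not_imp_left.symm

lemma domNum_spec (G : SimpleGraph (Fin n)) :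
    ∃ D : Finset (Fin n), D.card = domNum G ∧ ∀ v, v ∈ D ∨ ∃ u ∈ D, G.Adj v u := by
  have : domNum G ∈ {m | ∃ D : Finset (Fin n), D.card = m ∧ ∀ v, v ∉ D → ∃ u ∈ D, G.Adj v u} :=
    Nat.sInf_mem ⟨_, univ, rfl, fun v hv => absurd (Finset.mem_univ v) hv⟩
  obtain ⟨D, h1, h2⟩ := this
  exact ⟨D, h1, (dom_iff G D).1 h2⟩

lemma domNum_le (G : SimpleGraph (Fin n)) (D : Finset (Fin n))
    (h : ∀ v, v ∈ D ∨ ∃ u ∈ D, G.Adj v u) : domNum G ≤ D.card :=
  Nat.sInf_le ⟨D, rfl, (dom_iff G D).2 h⟩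

lemma dom_sup (G : SimpleGraph (Fin n)) {a b : Fin n} (hab : a ≠ b) (D : Finset (Fin n)) :
    (∀ v, v ∈ D ∨ ∃ u ∈ D, (G ⊔ SimpleGraph.edge a b).Adj v u) ↔
      ∀ v, v ∈ D ∨ (∃ u ∈ D, G.Adj v u) ∨ (v = a ∧ b ∈ D) ∨ (v = b ∧ a ∈ D) := by
  refine forall_congr' fun v => or_congr_right ?_
  simp only [SimpleGraph.sup_adj, SimpleGraph.edge_adj]
  constructor
  · rintro ⟨u, hu, h | ⟨h | h, _⟩⟩
    · exact Or.inl ⟨u, hu, h⟩
    · exact Or.inr (Or.inl ⟨h.1, h.2 ▸ hu⟩)
    · exact Or.inr (Or.inr ⟨h.1, h.2 ▸ hu⟩)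
  · rintro (⟨u, hu, h⟩ | h | h)
    · exact ⟨u, hu, Or.inl h⟩
    · exact ⟨b, h.2, Or.inr ⟨Or.inl ⟨h.1, rfl⟩, h.1 ▸ hab⟩⟩
    · exact ⟨a, h.2, Or.inr ⟨Or.inr ⟨h.1, rfl⟩, h.1 ▸ hab.symm⟩⟩

lemma pd_iff (G : SimpleGraph (Fin n)) : PointDist G ↔ PD G := by
  refine forall_congr' fun a => forall_congr' fun b => imp_congr_left ?_
  simp [Set.ext_iff]

lemma E_two (G : SimpleGraph (Fin n)) : E G = 2 * G.edgeSet.ncard := by
  rw [Set.ncard_eq_toFinset_card', ← SimpleGraph.edgeFinset,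
    ← SimpleGraph.sum_degrees_eq_twice_card_edges]
  refine Finset.sum_congr rfl fun x _ => ?_
  rw [← SimpleGraph.card_neighborFinset_eq_degree, SimpleGraph.neighborFinset_eq_filter]
  rfl

lemma of_crit {G : SimpleGraph (Fin n)} {k : ℕ} (hk : 1 ≤ k) (h : EdgeCritical G k) :
    Low G k ∧ Crit G k ∧ ∃ D : Finset (Fin n), D.card ≤ k ∧ ∀ v, v ∈ D ∨ ∃ u ∈ D, G.Adj v u := by
  refine ⟨fun D hD => h.1 ▸ domNum_le G D hD, fun a b hab hn => ?_, ?_⟩
  · obtain ⟨D, h1, h2⟩ := domNum_spec (G ⊔ SimpleGraph.edge a b)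
    rw [h.2 a b hab hn] at h1
    exact ⟨D, by omega, (dom_sup G hab D).1 h2⟩
  · obtain ⟨D, h1, h2⟩ := domNum_spec G
    exact ⟨D, by rw [h1, h.1], h2⟩

lemma to_crit {G : SimpleGraph (Fin n)} {k : ℕ} (hk : 2 ≤ k) (hlow : Low G k) (hcrit : Crit G k) :
    EdgeCritical G k := by
  constructor
  · have hn := hlow.le_card
    rw [Fintype.card_fin] at hn
    obtain ⟨D, h1, _, h2⟩ := through hk hlow hcrit ⟨0, by omega⟩
    obtain ⟨D', h3, h4⟩ := domNum_spec G
    have := domNum_le G D h2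
    have := hlow D' h4
    omega
  · intro a b hab hn
    obtain ⟨D, h1, h2⟩ := hcrit a b hab hn
    have u1 := domNum_le _ D ((dom_sup G hab D).2 h2)
    obtain ⟨D', h3, h4⟩ := domNum_spec (G ⊔ SimpleGraph.edge a b)
    rw [dom_sup G hab] at h4
    have : k ≤ D'.card + 1 := by
      by_cases ha : a ∈ D'
      · refine le_trans (hlow (insert b D') fun v => ?_) (Finset.card_insert_le _ _)
        rcases h4 v with h | ⟨u, hu, h⟩ | h | h
        · left; simp [h]
        · right; exact ⟨u, by simp [hu], h⟩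
        · left; simp [h.1, ha]
        · left; simp [h.1]
      · refine le_trans (hlow (insert a D') fun v => ?_) (Finset.card_insert_le _ _)
        rcases h4 v with h | ⟨u, hu, h⟩ | h | h
        · left; simp [h]
        · right; exact ⟨u, by simp [hu], h⟩
        · left; simp [h.1]
        · exact absurd h.2 ha
    omega

lemma mem_of_has {k m : ℕ} (hk : 2 ≤ k) (h : Has n k (2 * m)) : m ∈ edgeCounts n k := by
  obtain ⟨G, h1, h2, h3, h4⟩ := h.fin
  refine ⟨G, to_crit hk h1 h2, (pd_iff G).2 h3, ?_⟩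
  rw [E_two] at h4
  omega

lemma one_one : 0 ∈ edgeCounts 1 1 := by
  refine ⟨⊥, ⟨?_, fun u v huv => absurd (Subsingleton.elim u v) huv⟩,
    fun u v _ => Subsingleton.elim u v, by simp⟩
  obtain ⟨D, h1, h2⟩ := domNum_spec (⊥ : SimpleGraph (Fin 1))
  have h3 : D.card ≤ 1 := by simpa using Finset.card_le_univ D
  have h4 : 0 < D.card := by
    rcases h2 0 with h | ⟨u, hu, _⟩
    · exact Finset.card_pos.2 ⟨_, h⟩
    · exact Finset.card_pos.2 ⟨_, hu⟩
  omega

lemma choose_two (t : ℕ) : 2 * (t + 1).choose 2 = t * (t + 1) := by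
  rw [Nat.choose_two_right, Nat.add_sub_cancel, mul_comm (t + 1) t]
  exact Nat.two_mul_div_two_of_even (Nat.even_mul_succ_self t)

lemma upper {k m : ℕ} (hk : 1 ≤ k) (h : m ∈ edgeCounts n k) :
    ((k = 1 ∧ n = 1) ∨ (2 ≤ k ∧ k ≤ n ∧ Even (n - k)) ∨ (3 ≤ k ∧ k + 3 ≤ n ∧ Odd (n - k))) ∧
      m ≤ (if Even (n - k) then (n - k) * (n - k + 2) / 2
        else if n - k ≤ k then (n - k + 1).choose 2
        else (n - k + 1).choose 2 - (n - k) / 4) := by
  obtain ⟨G, h1, h2, h3⟩ := h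
  obtain ⟨hlow, hcrit, hup⟩ := of_crit hk h1
  have hpd := (pd_iff G).1 h2
  have hE := E_two G
  rw [h3] at hE
  have hn := hlow.le_card
  rw [Fintype.card_fin] at hn
  obtain ⟨t, rfl⟩ := Nat.exists_eq_add_of_le hn
  rw [Nat.add_sub_cancel_left]
  rcases Nat.even_or_odd t with ht | ht
  · rw [if_pos ht]
    constructor
    · by_cases e : k = 1
      · left
        have : Fintype.card (Fin (k + t)) ≤ 1 :=
          Fintype.card_le_one_iff.2 (complete_of_le_one e.le hcrit hpd)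
        rw [Fintype.card_fin] at this
        omega
      · right; left; exact ⟨by omega, hn, ht⟩
    · have := vizing G k univ t hlow.lowOn (by simp)
      have h5 : E G = ∑ x ∈ univ, dg G x univ := rfl
      omega
  · obtain ⟨u1, u2, u3, u4⟩ := upper_odd hlow hcrit hpd hup (by simp) ht
    rw [if_neg (Nat.not_even_iff_odd.2 ht)]
    have := choose_two t
    refine ⟨Or.inr (Or.inr ⟨u1, by omega, ht⟩), ?_⟩
    split_ifs with e
    · omega
    · have := u4 (by omega)
      omega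

lemma lower {k : ℕ}
    (h : (k = 1 ∧ n = 1) ∨ (2 ≤ k ∧ k ≤ n ∧ Even (n - k)) ∨ (3 ≤ k ∧ k + 3 ≤ n ∧ Odd (n - k))) :
    (if Even (n - k) then (n - k) * (n - k + 2) / 2
        else if n - k ≤ k then (n - k + 1).choose 2
        else (n - k + 1).choose 2 - (n - k) / 4) ∈ edgeCounts n k := by
  rcases h with ⟨rfl, rfl⟩ | ⟨h1, h2, h3⟩ | ⟨h1, h2, h3⟩
  · simpa using one_one
  · rw [if_pos h3]
    obtain ⟨s, hs⟩ := h3
    refine mem_of_has h1 ?_
    have := (has_cp s).add le_rfl (k - 2)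
    rw [show 2 + 2 * s + (k - 2) = n by omega, show 2 + (k - 2) = k by omega] at this
    rw [hs, show (s + s) * (s + s + 2) = 2 * (s * (2 * s + 2)) by ring, Nat.mul_div_cancel_left _
      (by omega), ← mul_assoc]
    exact this
  · rw [if_neg (Nat.not_even_iff_odd.2 h3)]
    generalize ht : n - k = t at h3
    have hc := choose_two t
    refine mem_of_has (by omega) ?_
    split_ifs with e
    · have := (has_cor t (by omega)).add (by omega) (k - t)
      rw [show t + t + (k - t) = n by omega, show t + (k - t) = k by omega] at this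
      rwa [hc]
    · obtain ⟨s, hs⟩ := h3
      obtain ⟨m, hm, hh⟩ := has_three ((t + 1) / 4) ((t + 1) % 4 / 2) (by omega)
      have e1 : 2 + 4 * ((t + 1) / 4) + 2 * ((t + 1) % 4 / 2) = t + 3 := by omega
      rw [e1] at hm hh
      have := hh.add (by omega) (k - 3)
      rw [show t + 3 + (k - 3) = n by omega, show 3 + (k - 3) = k by omega] at this
      have e2 : (t + 3) * (t + 3) = t * (t + 1) + 5 * t + 9 := by ring
      rw [show 2 * ((t + 1).choose 2 - t / 4) = m by omega]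
      exact this

end

end Pool.Agent.Lib.MP_3ecb7c_co
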