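import Pool.Agent.Lib.MP_3ecb7c_co.CaseB

namespace Pool.Agent.Lib.MP_3ecb7c_co

open Finset
open scoped Classical

noncomputable section

variable {V : Type} [Fintype V]

def Low (G : SimpleGraph V) (k : ℕ) : Prop :=
  ∀ D : Finset V, (∀ v, v ∈ D ∨ ∃ u ∈ D, G.Adj v u) → k ≤ D.card

def Crit (G : SimpleGraph V) (k : ℕ) : Prop :=
  ∀ a b, a ≠ b → ¬ G.Adj a b → ∃ D : Finset V, D.card < k ∧
    ∀ v, v ∈ D ∨ (∃ u ∈ D, G.Adj v u) ∨ (v = a ∧ b ∈ D) ∨ (v = b ∧ a ∈ D)

def PD (G : SimpleGraph V) : Prop :=
  ∀ a b, (∀ x, (x = a ∨ G.Adj a x) ↔ (x = b ∨ G.Adj b x)) → a = b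

def NoIso (G : SimpleGraph V) : Prop := ∀ a, ∃ b, G.Adj a b

/-- the degree sum -/
def E (G : SimpleGraph V) : ℕ := ∑ x, dg G x univ

def nb (G : SimpleGraph V) (v : V) : Finset V := univ.filter (fun y => G.Adj v y)

def far (G : SimpleGraph V) (v : V) : Finset V := univ.filter (fun y => y ≠ v ∧ ¬ G.Adj v y)

variable {G : SimpleGraph V}

@[simp] lemma mem_nb {v x : V} : x ∈ nb G v ↔ G.Adj v x := by simp [nb]

@[simp] lemma mem_far {v x : V} : x ∈ far G v ↔ x ≠ v ∧ ¬ G.Adj v x := by simp [far]

lemma nb_card (v : V) : (nb G v).card = dg G v univ := rfl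

lemma univ_split (v : V) : (univ : Finset V) = insert v (nb G v) ∪ far G v := by
  ext x; simp only [Finset.mem_univ, Finset.mem_union, Finset.mem_insert, mem_nb, mem_far]; tauto

lemma disj_split (v : V) : Disjoint (insert v (nb G v)) (far G v) := by
  rw [Finset.disjoint_left]; intro x hx hx'
  simp only [Finset.mem_insert, mem_nb, mem_far] at hx hx'; tauto

lemma card_split (v : V) : Fintype.card V = 1 + (nb G v).card + (far G v).card := by
  rw [← Finset.card_univ, univ_split (G := G) v, Finset.card_union_of_disjoint (disj_split v),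
    Finset.card_insert_of_notMem (by simp)]
  omega

omit [Fintype V] in
lemma dg_add_compl' {H : SimpleGraph V} (hH : ∀ x y, H.Adj x y ↔ x ≠ y ∧ ¬ G.Adj x y)
    {u : V} {N : Finset V} (hu : u ∈ N) :
    dg G u N + dg H u N + 1 = N.card := by
  have h1 := Finset.card_filter_add_card_filter_not (s := N) (fun y => G.Adj u y)
  have h2 : N.filter (fun y => ¬ G.Adj u y) = insert u (N.filter (fun y => H.Adj u y)) := by
    ext x
    simp only [Finset.mem_filter, Finset.mem_insert, hH]
    constructor
    · intro h; by_cases e : x = u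
      · exact Or.inl e
      · exact Or.inr ⟨h.1, Ne.symm e, h.2⟩
    · rintro (rfl | h)
      · exact ⟨hu, G.irrefl⟩
      · exact ⟨h.1, h.2.2⟩
  rw [h2, Finset.card_insert_of_notMem (by simp)] at h1
  unfold dg; omega

omit [Fintype V] in
lemma dg_add_compl {u : V} {N : Finset V} (hu : u ∈ N) :
    dg G u N + dg Gᶜ u N + 1 = N.card :=
  dg_add_compl' (fun x y => G.compl_adj x y) hu

omit [Fintype V] in
lemma card_le_dg {u : V} {T U : Finset V} (h : ∀ x ∈ T, x ∈ U ∧ G.Adj u x) :
    T.card ≤ dg G u U :=
  Finset.card_le_card fun x hx => Finset.mem_filter.2 (h x hx)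

lemma deg_nb {v u : V} (hu : u ∈ nb G v) :
    dg G u univ + dg Gᶜ u (nb G v) = (nb G v).card + dg G u (far G v) := by
  have h1 : dg G u univ = dg G u (insert v (nb G v) ∪ far G v) := by rw [← univ_split]
  have h2 : dg G u (insert v (nb G v)) = dg G u (nb G v) + 1 := by
    unfold dg
    rw [Finset.filter_insert, if_pos (mem_nb.1 hu).symm, Finset.card_insert_of_notMem (by simp)]
  rw [dg_union G u (disj_split v), h2] at h1
  have := dg_add_compl (G := G) hu
  omega

lemma identity (v : V) :
    E G + ∑ u ∈ nb G v, dg Gᶜ u (nb G v) = (nb G v).card + (nb G v).card * (nb G v).card +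
      2 * ∑ u ∈ nb G v, dg G u (far G v) + ∑ s ∈ far G v, dg G s (far G v) := by
  have e1 : E G = dg G v univ + ∑ x ∈ nb G v, dg G x univ + ∑ x ∈ far G v, dg G x univ := by
    have : E G = ∑ x ∈ insert v (nb G v) ∪ far G v, dg G x univ := by rw [← univ_split]; rfl
    rw [this, Finset.sum_union (disj_split v), Finset.sum_insert (by simp)]
  have e2 : ∑ x ∈ far G v, dg G x univ
      = ∑ x ∈ nb G v, dg G x (far G v) + ∑ x ∈ far G v, dg G x (far G v) := by
    rw [sum_dg_comm G (nb G v), ← Finset.sum_add_distrib]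
    refine Finset.sum_congr rfl fun s hs => ?_
    have h1 : dg G s univ = dg G s (insert v (nb G v) ∪ far G v) := by rw [← univ_split]
    rw [h1, dg_union G s (disj_split v)]
    congr 1
    unfold dg
    rw [Finset.filter_insert, if_neg (fun h => (mem_far.1 hs).2 h.symm)]
  have e3 : ∑ x ∈ nb G v, (dg G x univ + dg Gᶜ x (nb G v))
      = ∑ x ∈ nb G v, ((nb G v).card + dg G x (far G v)) :=
    Finset.sum_congr rfl fun x hx => deg_nb hx
  rw [Finset.sum_add_distrib, Finset.sum_add_distrib, Finset.sum_const, smul_eq_mul] at e3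
  have := nb_card (G := G) v
  omega

/-- a small set leaves some vertex undominated -/
lemma Low.undom {k : ℕ} (h : Low G k) (D : Finset V) (hD : D.card < k) :
    ∃ z, ∀ u ∈ D, z ≠ u ∧ ¬ G.Adj z u := by
  by_contra hc
  push Not at hc
  refine absurd (h D fun v => ?_) (by omega)
  obtain ⟨u, hu, h2⟩ := hc v
  by_cases e : v = u
  · exact Or.inl (e ▸ hu)
  · exact Or.inr ⟨u, hu, h2 e⟩

lemma r0 {q : ℕ} (hq : 2 ≤ q) (hlow : Low G (q + 1)) (hcrit : Crit G (q + 1)) (hpd : PD G)
    (hiso : NoIso G) (v : V) (hS : (far G v).card = q) :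
    (E G ≤ (nb G v).card * ((nb G v).card + 1) ∧ (nb G v).card ≤ q + 1) ∨
      2 * E G + (nb G v).card ≤ 2 * ((nb G v).card * ((nb G v).card + 1)) + 4 := by
  set N := nb G v with hN
  set S := far G v with hS'
  have hNS : ∀ x, x ∈ N → x ∉ S := fun x hx hx' => (mem_far.1 hx').2 (mem_nb.1 hx)
  have tri : ∀ z, z = v ∨ z ∈ N ∨ z ∈ S := by
    intro z; simp only [hN, hS', mem_nb, mem_far]; tauto
  have indep : ∀ s ∈ S, ∀ s' ∈ S, ¬ G.Adj s s' := by
    intro s hs s' hs' ha
    obtain ⟨z, hz⟩ := hlow.undom (insert v (S.erase s')) (by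
      have := Finset.card_insert_le v (S.erase s')
      rw [Finset.card_erase_of_mem hs'] at this
      omega)
    rcases tri z with e | e | e
    · exact (hz v (by simp)).1 e
    · exact (hz v (by simp)).2 (mem_nb.1 e).symm
    · by_cases e2 : z = s'
      · exact (hz s (by simp [hs, ha.ne])).2 (e2 ▸ ha.symm)
      · exact (hz z (by simp [e, e2])).1 rfl
  have uniq : ∀ u ∈ N, ∀ s ∈ S, ∀ s' ∈ S, G.Adj u s → G.Adj u s' → s = s' := by
    intro u hu s hs s' hs' a1 a2
    by_contra hne
    obtain ⟨z, hz⟩ := hlow.undom (insert u (insert v ((S.erase s).erase s'))) (by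
      have h1 := Finset.card_insert_le u (insert v ((S.erase s).erase s'))
      have h2 := Finset.card_insert_le v ((S.erase s).erase s')
      rw [Finset.card_erase_of_mem (Finset.mem_erase.2 ⟨Ne.symm hne, hs'⟩),
        Finset.card_erase_of_mem hs] at h2
      omega)
    rcases tri z with e | e | e
    · exact (hz v (by simp)).1 e
    · exact (hz v (by simp)).2 (mem_nb.1 e).symm
    · by_cases e2 : z = s'
      · exact (hz u (by simp)).2 (e2 ▸ a2.symm)
      · by_cases e3 : z = s
        · exact (hz u (by simp)).2 (e3 ▸ a1.symm)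
        · exact (hz z (by simp [e, e2, e3])).1 rfl
  have hne : ∀ s ∈ S, ∃ u ∈ N, G.Adj u s := by
    intro s hs
    obtain ⟨b, hb⟩ := hiso s
    rcases tri b with e | e | e
    · exact absurd (e ▸ hb.symm) (mem_far.1 hs).2
    · exact ⟨b, e, hb.symm⟩
    · exact absurd hb (indep s hs b e)
  have p0 : ∀ u ∈ N, ∃ z ∈ N, Gᶜ.Adj u z := by
    intro u hu
    by_contra hc
    push Not at hc
    have hu' := mem_nb.1 hu
    have nos : ∀ s ∈ S, ¬ G.Adj u s := by
      intro s hs ha
      obtain ⟨z, hz⟩ := hlow.undom (insert u (S.erase s)) (by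
        have := Finset.card_insert_le u (S.erase s)
        rw [Finset.card_erase_of_mem hs] at this
        omega)
      rcases tri z with e | e | e
      · exact (hz u (by simp)).2 (e ▸ hu')
      · have := hz u (by simp)
        exact hc z e ((G.compl_adj u z).2 ⟨this.1.symm, fun h => this.2 h.symm⟩)
      · by_cases e2 : z = s
        · exact (hz u (by simp)).2 (e2 ▸ ha.symm)
        · exact (hz z (by simp [e, e2])).1 rfl
    refine hu'.ne (hpd v u fun x => ?_)
    rcases tri x with e | e | e
    · subst e; simp [hu'.symm]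
    · have := hc x e
      rw [SimpleGraph.compl_adj] at this
      have h2 := mem_nb.1 e
      constructor
      · intro _; by_cases e2 : x = u
        · exact Or.inl e2
        · right; by_contra h3; exact this ⟨Ne.symm e2, h3⟩
      · intro _; exact Or.inr h2
    · have h2 := mem_far.1 e
      constructor
      · rintro (h | h)
        · exact absurd h h2.1
        · exact absurd h h2.2
      · rintro (h | h)
        · exact absurd (h ▸ e) (hNS u hu)
        · exact absurd h (nos x e)
  have p1 : ∀ u ∈ N, ∀ u' ∈ N, ∀ s ∈ S, G.Adj u s → G.Adj u' s →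
      (∀ z ∈ N, Gᶜ.Adj u z ↔ Gᶜ.Adj u' z) → u = u' := by
    intro u hu u' hu' s hs a1 a2 hh
    refine hpd u u' fun x => ?_
    rcases tri x with e | e | e
    · subst e; simp [(mem_nb.1 hu).symm, (mem_nb.1 hu').symm]
    · have := hh x e
      simp only [SimpleGraph.compl_adj] at this
      constructor
      · intro h; by_contra h2
        push Not at h2
        have := this.2 ⟨Ne.symm h2.1, h2.2⟩
        rcases h with h | h
        · exact this.1 h.symm
        · exact this.2 h
      · intro h; by_contra h2
        push Not at h2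
        have := this.1 ⟨Ne.symm h2.1, h2.2⟩
        rcases h with h | h
        · exact this.1 h.symm
        · exact this.2 h
    · constructor
      · rintro (h | h)
        · exact absurd (h ▸ e) (hNS u hu)
        · right; rw [uniq u hu x e s hs h a1]; exact a2
      · rintro (h | h)
        · exact absurd (h ▸ e) (hNS u' hu')
        · right; rw [uniq u' hu' x e s hs h a2]; exact a1
  set M := N.filter (fun u => ∃ s ∈ S, G.Adj u s) with hM
  have hid := identity (G := G) v
  rw [← hN, ← hS'] at hid
  have z1 : ∑ s ∈ S, dg G s S = 0 := by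
    refine Finset.sum_eq_zero fun s hs => ?_
    unfold dg
    rw [Finset.card_eq_zero, Finset.filter_eq_empty_iff]
    exact fun s' hs' => indep s hs s' hs'
  have z2 : ∑ u ∈ N, dg G u S ≤ M.card := by
    rw [hM, Finset.card_filter]
    refine Finset.sum_le_sum fun u hu => ?_
    split_ifs with h
    · exact Finset.card_le_one.2 fun a ha b hb => uniq u hu a (Finset.mem_filter.1 ha).1 b
        (Finset.mem_filter.1 hb).1 (Finset.mem_filter.1 ha).2 (Finset.mem_filter.1 hb).2
    · unfold dg
      rw [Nat.le_zero, Finset.card_eq_zero, Finset.filter_eq_empty_iff]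
      exact fun s hs ha => h ⟨s, hs, ha⟩
  by_cases hA : ∃ z ∈ N, (∀ s ∈ S, ¬ G.Adj z s) ∧ ∀ u ∈ N, ∀ s ∈ S, G.Adj u s → Gᶜ.Adj z u
  · left
    obtain ⟨z, hz, hz1, hz2⟩ := hA
    have hzM : z ∉ M := fun h => by
      obtain ⟨s, hs, ha⟩ := (Finset.mem_filter.1 h).2
      exact hz1 s hs ha
    constructor
    · have b1 : M.card ≤ dg Gᶜ z N := by
        refine card_le_dg fun u hu => ?_
        obtain ⟨huN, s, hs, ha⟩ := Finset.mem_filter.1 hu
        exact ⟨huN, hz2 u huN s hs ha⟩
      have b2 : M.card ≤ ∑ u ∈ M, dg Gᶜ u N := by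
        have := Finset.card_nsmul_le_sum M (fun u => dg Gᶜ u N) 1 (fun u hu => by
          obtain ⟨x, hx, ha⟩ := p0 u (Finset.mem_filter.1 hu).1
          exact one_le_dg hx ha)
        simpa using this
      have b3 : ∑ u ∈ insert z M, dg Gᶜ u N ≤ ∑ u ∈ N, dg Gᶜ u N :=
        Finset.sum_le_sum_of_subset (Finset.insert_subset hz (Finset.filter_subset _ _))
      rw [Finset.sum_insert hzM] at b3
      nlinarith
    · have edge : ∀ a ∈ N, ∀ b ∈ N, Gᶜ.Adj a b → (z = a ∧ b ∈ M) ∨ (z = b ∧ a ∈ M) := by
        intro a ha b hb hab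
        rw [SimpleGraph.compl_adj] at hab
        obtain ⟨D, hD, hdom⟩ := hcrit a b hab.1 hab.2
        have hsub : D ⊆ S ∪ M := by
          have hle : S.card ≤ (D ∩ (S ∪ M)).card := by
            refine Finset.card_le_card_of_forall_subsingleton
              (fun s d => d = s ∨ (d ∈ N ∧ G.Adj d s)) ?_ ?_
            · intro s hs
              rcases hdom s with h | ⟨u, hu, h⟩ | h | h
              · exact ⟨s, by simp [h, hs], Or.inl rfl⟩
              · rcases tri u with e | e | e
                · exact absurd (e ▸ h.symm) (mem_far.1 hs).2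
                · refine ⟨u, Finset.mem_inter.2 ⟨hu, Finset.mem_union_right _
                    (Finset.mem_filter.2 ⟨e, s, hs, h.symm⟩)⟩, Or.inr ⟨e, h.symm⟩⟩
                · exact absurd h (indep s hs u e)
              · exact absurd (h.1 ▸ hs) (hNS a ha)
              · exact absurd (h.1 ▸ hs) (hNS b hb)
            · intro d _ s hs s' hs'
              rcases hs.2 with h | h <;> rcases hs'.2 with h' | h'
              · exact h.symm.trans h'
              · exact absurd (h ▸ hs.1) (hNS d h'.1)
              · exact absurd (h' ▸ hs'.1) (hNS d h.1)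
              · exact uniq d h.1 s hs.1 s' hs'.1 h.2 h'.2
          have := Finset.eq_of_subset_of_card_le (Finset.inter_subset_left (s₁ := D) (s₂ := S ∪ M))
            (by omega)
          rw [← this]; exact Finset.inter_subset_right
        have inM : ∀ x ∈ N, x ∈ D → x ∈ M := fun x hx hx' => by
          rcases Finset.mem_union.1 (hsub hx') with h | h
          · exact absurd h (hNS x hx)
          · exact h
        rcases hdom z with h | ⟨u, hu, h⟩ | h | h
        · exact absurd (inM z hz h) hzM
        · rcases Finset.mem_union.1 (hsub hu) with h' | h'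
          · exact absurd h (hz1 u h')
          · obtain ⟨huN, s, hs, ha⟩ := Finset.mem_filter.1 h'
            exact absurd h ((G.compl_adj z u).1 (hz2 u huN s hs ha)).2
        · exact Or.inl ⟨h.1, inM b hb h.2⟩
        · exact Or.inr ⟨h.1, inM a ha h.2⟩
      have leaf : ∀ x ∈ N.erase z, x ∈ M ∧ ∀ y ∈ N, Gᶜ.Adj x y ↔ y = z := by
        intro x hx
        obtain ⟨hxz, hxN⟩ := Finset.mem_erase.1 hx
        obtain ⟨y, hy, ha⟩ := p0 x hxN
        have key : ∀ y ∈ N, Gᶜ.Adj x y → z = y ∧ x ∈ M := fun y hy ha => by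
          rcases edge x hxN y hy ha with h | h
          · exact absurd h.1.symm hxz
          · exact h
        refine ⟨(key y hy ha).2, fun y' hy' => ⟨fun h => (key y' hy' h).1.symm, fun h => ?_⟩⟩
        rw [h, (key y hy ha).1]; exact ha
      have hle : (N.erase z).card ≤ S.card := by
        refine Finset.card_le_card_of_forall_subsingleton (fun x s => G.Adj x s) ?_ ?_
        · intro x hx
          obtain ⟨_, s, hs, ha⟩ := Finset.mem_filter.1 (leaf x hx).1
          exact ⟨s, hs, ha⟩
        · intro s hs x hx x' hx'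
          refine p1 x (Finset.mem_of_mem_erase hx.1) x' (Finset.mem_of_mem_erase hx'.1) s hs
            hx.2 hx'.2 fun y hy => ?_
          rw [(leaf x hx.1).2 y hy, (leaf x' hx'.1).2 y hy]
      rw [Finset.card_erase_of_mem hz] at hle
      omega
  · right
    have hsit : Sit Gᶜ N S (fun u s => G.Adj u s) := by
      refine ⟨uniq, hne, ?_, ?_, ?_, p0, p1, hA⟩
      · obtain ⟨a, ha, b, hb, hab⟩ := Finset.one_lt_card.1 (show 1 < S.card by omega)
        exact ⟨a, ha, b, hb, hab⟩
      · intro s hs u hu ha
        obtain ⟨z, hz⟩ := hlow.undom (insert u (S.erase s)) (by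
          have := Finset.card_insert_le u (S.erase s)
          rw [Finset.card_erase_of_mem hs] at this
          omega)
        have h1 := hz u (by simp)
        rcases tri z with e | e | e
        · exact absurd (e ▸ (mem_nb.1 hu)) h1.2
        · refine ⟨z, e, (G.compl_adj z u).2 h1, fun s' hs' ha' => ?_⟩
          by_contra hc
          exact (hz s' (by simp [hs', hc])).2 ha'
        · by_cases e2 : z = s
          · exact absurd (e2 ▸ ha.symm) h1.2
          · exact absurd rfl (hz z (by simp [e, e2])).1
      · intro s hs s' hs' hss u hu u' hu' ha ha'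
        obtain ⟨z, hz⟩ := hlow.undom (insert u (insert u' ((S.erase s).erase s'))) (by
          have h1 := Finset.card_insert_le u (insert u' ((S.erase s).erase s'))
          have h2 := Finset.card_insert_le u' ((S.erase s).erase s')
          rw [Finset.card_erase_of_mem (Finset.mem_erase.2 ⟨Ne.symm hss, hs'⟩),
            Finset.card_erase_of_mem hs] at h2
          omega)
        have h1 := hz u (by simp)
        have h2 := hz u' (by simp)
        rcases tri z with e | e | e
        · exact absurd (e ▸ (mem_nb.1 hu)) h1.2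
        · refine ⟨z, e, (G.compl_adj z u).2 h1, (G.compl_adj z u').2 h2, fun s'' hs'' ha'' => ?_⟩
          by_contra hc
          push Not at hc
          exact (hz s'' (by simp [hs'', hc.1, hc.2])).2 ha''
        · by_cases e2 : z = s
          · exact absurd (e2 ▸ ha.symm) h1.2
          · by_cases e3 : z = s'
            · exact absurd (e3 ▸ ha'.symm) h2.2
            · exact absurd rfl (hz z (by simp [e, e2, e3])).1
    have := hsit.bound
    rw [← hM] at this
    nlinarith

end

end Pool.Agent.Lib.MP_3ecb7c_co
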