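import Pool.Agent.Lib.MP_3ecb7c_co.R0

namespace Pool.Agent.Lib.MP_3ecb7c_co

open Finset
open scoped Classical

noncomputable section

variable {V : Type}

lemma even_sum_dg (G : SimpleGraph V) (U : Finset V) : Even (∑ x ∈ U, dg G x U) := by
  induction U using Finset.induction_on with
  | empty => simp
  | insert a U ha ih =>
    have h1 : ∀ x, dg G x (insert a U) = dg G x {a} + dg G x U := by
      intro x
      rw [← dg_union G x (Finset.disjoint_singleton_left.2 ha)]; rfl
    have h2 : dg G a {a} = 0 := by simp [dg]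
    have h3 : ∑ x ∈ U, dg G x {a} = dg G a U := by rw [sum_dg_comm]; simp
    rw [Finset.sum_insert ha]
    simp only [h1, Finset.sum_add_distrib, h2, h3]
    obtain ⟨m, hm⟩ := ih
    exact ⟨m + dg G a U, by omega⟩

lemma exists_of_dg_pos {G : SimpleGraph V} {x : V} {U : Finset V} (h : 0 < dg G x U) :
    ∃ y, y ∈ U ∧ G.Adj x y := by
  obtain ⟨y, hy⟩ := Finset.card_pos.1 h
  exact ⟨y, Finset.mem_filter.1 hy⟩

lemma cov {H : SimpleGraph V} {N P Q : Finset V} {σ δ : V → ℕ}
    (hf : ∀ z ∈ N, dg H z N = σ z + δ z) (hσ : ∀ z ∈ N, σ z ≤ 2) {x : V} (hx : x ∈ P)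
    (hP : P ⊆ N) (hQ : Q ⊆ N) (hd : Disjoint P Q)
    (hc : ∀ y ∈ Q, ∃ z ∈ N, H.Adj z x ∧ H.Adj z y) :
    Q.card ≤ σ x + ∑ z ∈ N, δ z ∧
      ((∃ z ∈ N, H.Adj z x ∧ 2 ≤ dg H z P) → Q.card + 1 ≤ σ x + ∑ z ∈ N, δ z) := by
  set Z := N.filter (fun z => H.Adj x z) with hZ
  have hxN := hP hx
  have h1 : Q.card ≤ ∑ z ∈ Z, dg H z Q := by
    rw [sum_dg_comm]
    have := Finset.card_nsmul_le_sum Q (fun y => dg H y Z) 1 (fun y hy => by
      obtain ⟨z, hz, a1, a2⟩ := hc y hy
      exact one_le_dg (Finset.mem_filter.2 ⟨hz, a1.symm⟩) a2.symm)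
    simpa using this
  have h2 : ∀ z ∈ Z, dg H z Q + dg H z P ≤ 2 + δ z := by
    intro z hz
    have hzN := (Finset.mem_filter.1 hz).1
    have a := dg_mono H z (Finset.union_subset hP hQ)
    rw [dg_union H z hd, hf z hzN] at a
    have := hσ z hzN
    omega
  have h3 := Finset.sum_le_sum h2
  rw [Finset.sum_add_distrib, Finset.sum_add_distrib, Finset.sum_const, smul_eq_mul] at h3
  have h4 : Z.card = σ x + δ x := hf x hxN
  have h5 : ∑ z ∈ insert x Z, δ z ≤ ∑ z ∈ N, δ z :=
    Finset.sum_le_sum_of_subset (Finset.insert_subset hxN (Finset.filter_subset _ _))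
  rw [Finset.sum_insert (by simp [hZ])] at h5
  have h6 : ∀ z ∈ Z, 1 ≤ dg H z P := fun z hz => one_le_dg hx (Finset.mem_filter.1 hz).2.symm
  constructor
  · have := Finset.card_nsmul_le_sum Z (fun z => dg H z P) 1 h6
    simp only [smul_eq_mul, mul_one] at this
    omega
  · rintro ⟨z, hz, a1, a2⟩
    have : ∑ z ∈ Z, 1 < ∑ z ∈ Z, dg H z P :=
      Finset.sum_lt_sum h6 ⟨z, Finset.mem_filter.2 ⟨hz, a1.symm⟩, by omega⟩
    simp only [Finset.sum_const, smul_eq_mul, mul_one] at this
    omega

variable [Fintype V] {G : SimpleGraph V}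

lemma r1 {q : ℕ} (hq : 2 ≤ q) (hlow : Low G (q + 1)) (hiso : NoIso G) (v : V)
    (hS : (far G v).card = q + 1) (hmax : ∀ x, dg G x univ ≤ dg G v univ) :
    2 * E G + ((nb G v).card + 1) ≤ 2 * (((nb G v).card + 1) * ((nb G v).card + 1 + 1)) + 4 := by
  set N := nb G v with hN
  set S := far G v with hS'
  have hNS : ∀ x, x ∈ N → x ∉ S := fun x hx hx' => (mem_far.1 hx').2 (mem_nb.1 hx)
  have tri : ∀ z, z = v ∨ z ∈ N ∨ z ∈ S := by
    intro z; simp only [hN, hS', mem_nb, mem_far]; tauto
  have hlowS : LowOn G S q := by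
    intro D _ hdom
    have := hlow (insert v D) (fun x => by
      rcases tri x with e | e | e
      · left; simp [e]
      · right; exact ⟨v, by simp, (mem_nb.1 e).symm⟩
      · rcases hdom x e with h | ⟨u, hu, h⟩
        · left; simp [h]
        · right; exact ⟨u, by simp [hu], h⟩)
    have h2 := Finset.card_insert_le v D
    omega
  have heS : ∑ s ∈ S, dg G s S ≤ 2 := by
    have h1 := vizing G q S 1 hlowS hS
    obtain ⟨m, hm⟩ := even_sum_dg G S
    omega
  set σ : V → ℕ := fun u => dg G u S with hσ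
  set δ : V → ℕ := fun u => dg Gᶜ u N - dg G u S with hδ
  have hf : ∀ z ∈ N, dg Gᶜ z N = σ z + δ z := by
    intro z hz
    have h1 := deg_nb hz
    have h2 := hmax z
    have h3 := nb_card (G := G) v
    simp only [hσ, hδ]
    rw [← hN, ← hS'] at h1
    rw [← hN] at h3
    omega
  have hσ2 : ∀ z ∈ N, σ z ≤ 2 := by
    intro u hu
    have := hlow (insert u (insert v (S.filter (fun y => ¬ G.Adj u y)))) (fun x => by
      rcases tri x with e | e | e
      · left; simp [e]
      · right; exact ⟨v, by simp, (mem_nb.1 e).symm⟩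
      · by_cases h3 : G.Adj u x
        · right; exact ⟨u, by simp, h3.symm⟩
        · left; simp [e, h3])
    have h2 := Finset.card_insert_le u (insert v (S.filter (fun y => ¬ G.Adj u y)))
    have h3 := Finset.card_insert_le v (S.filter (fun y => ¬ G.Adj u y))
    have h4 := Finset.card_filter_add_card_filter_not (s := S) (fun y => G.Adj u y)
    simp only [hσ]; unfold dg; omega
  have pairz : ∀ x ∈ N, ∀ y, ∀ T : Finset V, T ⊆ S → 3 ≤ T.card →
      (∀ s ∈ T, s = y ∨ G.Adj x s ∨ G.Adj y s) →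
      ∃ z ∈ N, Gᶜ.Adj z x ∧ z ≠ y ∧ ¬ G.Adj z y := by
    intro x hx y T hT h3 hdom
    obtain ⟨z, hz⟩ := hlow.undom (insert x (insert y (S \ T))) (by
      have h1 := Finset.card_insert_le x (insert y (S \ T))
      have h2 := Finset.card_insert_le y (S \ T)
      rw [Finset.card_sdiff_of_subset hT] at h2
      omega)
    have h1 := hz x (by simp)
    have h2 := hz y (by simp)
    rcases tri z with e | e | e
    · exact absurd (e ▸ mem_nb.1 hx) h1.2
    · exact ⟨z, e, (G.compl_adj z x).2 h1, h2⟩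
    · by_cases e2 : z ∈ T
      · rcases hdom z e2 with h | h | h
        · exact absurd h h2.1
        · exact absurd h.symm h1.2
        · exact absurd h.symm h2.2
      · exact absurd rfl (hz z (by simp [e, e2])).1
  set P := N.filter (fun u => σ u = 2) with hP
  have hPN : P ⊆ N := Finset.filter_subset _ _
  have hsum : ∑ u ∈ N, σ u ≤ N.card + P.card := by
    have : ∑ u ∈ N, σ u ≤ ∑ u ∈ N, (1 + if σ u = 2 then 1 else 0) :=
      Finset.sum_le_sum fun u hu => by
        have := hσ2 u hu
        split_ifs <;> omega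
    rw [Finset.sum_add_distrib, ← Finset.card_filter] at this
    simpa using this
  have hid := identity (G := G) v
  rw [← hN, ← hS', Finset.sum_congr rfl hf, Finset.sum_add_distrib] at hid
  have hPc : P.card ≤ N.card := Finset.card_le_card hPN
  suffices key : 2 * P.card ≤ N.card + 3 + 2 * ∑ z ∈ N, δ z by
    have : ∑ u ∈ N, dg G u S = ∑ u ∈ N, σ u := rfl
    nlinarith
  rcases P.eq_empty_or_nonempty with hPe | ⟨x0, hx0⟩
  · rw [hPe]; simp
  set ty : V → Finset V := fun u => S.filter (fun y => G.Adj u y) with hty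
  have tyc : ∀ u ∈ P, (ty u).card = 2 := fun u hu => (Finset.mem_filter.1 hu).2
  have cross : ∀ x ∈ P, ∀ y ∈ P, ty x ≠ ty y → ∃ z ∈ N, Gᶜ.Adj z x ∧ Gᶜ.Adj z y := by
    intro x hx y hy hne
    obtain ⟨z, hz, a1, a2⟩ := pairz x (hPN hx) y (ty x ∪ ty y)
      (Finset.union_subset (Finset.filter_subset _ _) (Finset.filter_subset _ _)) (by
        by_contra hc
        have e1 := Finset.eq_of_subset_of_card_le
          (Finset.subset_union_left (s₁ := ty x) (s₂ := ty y)) (by rw [tyc x hx]; omega)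
        have e2 := Finset.eq_of_subset_of_card_le
          (Finset.subset_union_right (s₁ := ty x) (s₂ := ty y)) (by rw [tyc y hy]; omega)
        exact hne (e1.trans e2.symm)) (fun s hs => by
        rcases Finset.mem_union.1 hs with h | h
        · exact Or.inr (Or.inl (Finset.mem_filter.1 h).2)
        · exact Or.inr (Or.inr (Finset.mem_filter.1 h).2))
    exact ⟨z, hz, a1, (G.compl_adj z y).2 a2⟩
  set P1 := P.filter (fun u => ty u = ty x0) with hP1
  set P2 := P.filter (fun u => ¬ ty u = ty x0) with hP2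
  have h12 : P1.card + P2.card = P.card := Finset.card_filter_add_card_filter_not _
  have hx1 : x0 ∈ P1 := Finset.mem_filter.2 ⟨hx0, rfl⟩
  have s1 : P1 ⊆ P := Finset.filter_subset _ _
  have s2 : P2 ⊆ P := Finset.filter_subset _ _
  have hd : Disjoint P1 P2 := Finset.disjoint_filter_filter_not _ _ _
  rcases P2.eq_empty_or_nonempty with hP2e | ⟨y0, hy0⟩
  · have hall : ∀ u ∈ P, ty u = ty x0 := by
      intro u hu
      by_contra hc
      have : u ∈ P2 := Finset.mem_filter.2 ⟨hu, hc⟩
      rw [hP2e] at this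
      exact absurd this (Finset.notMem_empty _)
    obtain ⟨s3, hs3, hs3'⟩ : ∃ s3 ∈ S, s3 ∉ ty x0 := by
      by_contra hc
      push Not at hc
      have := Finset.card_le_card (show S ⊆ ty x0 from hc)
      rw [tyc x0 hx0] at this
      omega
    obtain ⟨w, hw⟩ := hiso s3
    have hT : insert s3 (ty x0) ⊆ S := Finset.insert_subset hs3 (Finset.filter_subset _ _)
    have hT3 : (insert s3 (ty x0)).card = 3 := by
      rw [Finset.card_insert_of_notMem hs3', tyc x0 hx0]
    have hz : ∀ x ∈ P, ∃ z ∈ N, Gᶜ.Adj z x ∧ z ≠ w ∧ ¬ G.Adj z w := fun x hx =>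
      pairz x (hPN hx) w _ hT hT3.ge (fun s hs => by
        rcases Finset.mem_insert.1 hs with h | h
        · exact Or.inr (Or.inr (h ▸ hw.symm))
        · rw [← hall x hx] at h
          exact Or.inr (Or.inl (Finset.mem_filter.1 h).2))
    rcases tri w with e | e | e
    · exact absurd (e ▸ hw.symm) (mem_far.1 hs3).2
    · have hwP : w ∉ P := fun h => hs3' (by
        rw [← hall w h]; exact Finset.mem_filter.2 ⟨hs3, hw.symm⟩)
      have := (cov hf hσ2 (Finset.mem_singleton_self w) (Finset.singleton_subset_iff.2 e) hPN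
        (Finset.disjoint_singleton_left.2 hwP) (fun y hy => by
          obtain ⟨z, hz1, a1, a2⟩ := hz y hy
          exact ⟨z, hz1, (G.compl_adj z w).2 a2, a1⟩)).1
      have h2 : σ w ≠ 2 := fun h => hwP (Finset.mem_filter.2 ⟨e, h⟩)
      have h3 := hσ2 w e
      omega
    · have hwty : w ∈ ty x0 := by
        by_contra hc
        have hT' : insert w (insert s3 (ty x0)) ⊆ S := Finset.insert_subset e hT
        have hT4 : (insert w (insert s3 (ty x0))).card = 4 := by
          rw [Finset.card_insert_of_notMem (by simp [hc, hw.ne.symm]), hT3]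
        obtain ⟨z, hz⟩ := hlow.undom
          (insert v (insert x0 (insert w (S \ insert w (insert s3 (ty x0)))))) (by
          have h1 := Finset.card_insert_le v
            (insert x0 (insert w (S \ insert w (insert s3 (ty x0)))))
          have h2 := Finset.card_insert_le x0 (insert w (S \ insert w (insert s3 (ty x0))))
          have h3 := Finset.card_insert_le w (S \ insert w (insert s3 (ty x0)))
          have h4 := Finset.card_le_card hT'
          rw [Finset.card_sdiff_of_subset hT'] at h3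
          omega)
        rcases tri z with e' | e' | e'
        · exact (hz v (by simp)).1 e'
        · exact (hz v (by simp)).2 (mem_nb.1 e').symm
        · by_cases e2 : z ∈ insert w (insert s3 (ty x0))
          · rcases Finset.mem_insert.1 e2 with h | h
            · exact (hz w (by simp)).1 h
            · rcases Finset.mem_insert.1 h with h | h
              · exact (hz w (by simp)).2 (h ▸ hw)
              · exact (hz x0 (by simp)).2 (Finset.mem_filter.1 h).2.symm
          · exact (hz z (Finset.mem_insert_of_mem (Finset.mem_insert_of_mem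
              (Finset.mem_insert_of_mem (Finset.mem_sdiff.2 ⟨e', e2⟩))))).1 rfl
      set A := N.filter (fun u => ¬ σ u = 2) with hA
      have hPA : P.card + A.card = N.card := Finset.card_filter_add_card_filter_not _
      have b1 : P.card ≤ ∑ a ∈ A, dg Gᶜ a P := by
        rw [sum_dg_comm]
        have := Finset.card_nsmul_le_sum P (fun y => dg Gᶜ y A) 1 (fun y hy => by
          obtain ⟨z, hz1, a1, a2⟩ := hz y hy
          refine one_le_dg (Finset.mem_filter.2 ⟨hz1, fun h => ?_⟩) a1.symm
          have h' : z ∈ P := Finset.mem_filter.2 ⟨hz1, h⟩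
          rw [← hall z h'] at hwty
          exact a2.2 (Finset.mem_filter.1 hwty).2)
        simpa using this
      have b2 : ∑ a ∈ A, dg Gᶜ a P ≤ ∑ a ∈ A, (1 + δ a) :=
        Finset.sum_le_sum fun a ha => by
          obtain ⟨haN, ha2⟩ := Finset.mem_filter.1 ha
          have c1 := dg_mono Gᶜ a hPN
          have c2 := hf a haN
          have c3 := hσ2 a haN
          omega
      rw [Finset.sum_add_distrib, Finset.sum_const, smul_eq_mul, mul_one] at b2
      have b3 : ∑ a ∈ A, δ a ≤ ∑ a ∈ N, δ a :=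
        Finset.sum_le_sum_of_subset (Finset.filter_subset _ _)
      omega
  · have c12 : ∀ x ∈ P1, ∀ y ∈ P2, ∃ z ∈ N, Gᶜ.Adj z x ∧ Gᶜ.Adj z y := fun x hx y hy =>
      cross x (s1 hx) y (s2 hy) (fun h =>
        (Finset.mem_filter.1 hy).2 (h.symm.trans (Finset.mem_filter.1 hx).2))
    have k1 := fun x (hx : x ∈ P1) => cov hf hσ2 hx (s1.trans hPN) (s2.trans hPN) hd (c12 x hx)
    have k2 := fun y (hy : y ∈ P2) => cov hf hσ2 hy (s2.trans hPN) (s1.trans hPN) hd.symm
      (fun x hx => by
        obtain ⟨z, hz, a1, a2⟩ := c12 x hx y hy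
        exact ⟨z, hz, a2, a1⟩)
    have sg : ∀ u ∈ P, σ u = 2 := fun u hu => (Finset.mem_filter.1 hu).2
    have g1 := (k1 x0 hx1).1
    have g2 := (k2 y0 hy0).1
    rw [sg x0 hx0] at g1
    rw [sg y0 (s2 hy0)] at g2
    by_cases hlt : P.card < N.card
    · omega
    have hPeq : P = N := Finset.eq_of_subset_of_card_le hPN (by omega)
    by_cases q1 : ∃ z ∈ N, 2 ≤ dg Gᶜ z P1
    · obtain ⟨z, hz, h2⟩ := q1
      obtain ⟨x, hx1, hx2⟩ := exists_of_dg_pos (show 0 < dg Gᶜ z P1 by omega)
      have := (k1 x hx1).2 ⟨z, hz, hx2, h2⟩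
      rw [sg x (s1 hx1)] at this
      omega
    by_cases q2 : ∃ z ∈ N, 2 ≤ dg Gᶜ z P2
    · obtain ⟨z, hz, h2⟩ := q2
      obtain ⟨x, hx1, hx2⟩ := exists_of_dg_pos (show 0 < dg Gᶜ z P2 by omega)
      have := (k2 x hx1).2 ⟨z, hz, hx2, h2⟩
      rw [sg x (s2 hx1)] at this
      omega
    exfalso
    push Not at q1 q2
    have hNu : N = P1 ∪ P2 := by
      rw [← hPeq, hP1, hP2, Finset.filter_union_filter_not_eq]
    have d0 : dg Gᶜ x0 N = dg Gᶜ x0 P1 + dg Gᶜ x0 P2 := by
      rw [← dg_union Gᶜ x0 hd, ← hNu]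
    have d1 := hf x0 (hPN hx0)
    have d2 := q1 x0 (hPN hx0)
    rw [sg x0 hx0] at d1
    obtain ⟨y, hy1, hy2⟩ := exists_of_dg_pos (show 0 < dg Gᶜ x0 P2 by omega)
    obtain ⟨z, hz, a1, a2⟩ := c12 x0 hx1 y hy1
    have hz' := hz
    rw [hNu] at hz'
    rcases Finset.mem_union.1 hz' with h | h
    · have := two_le_dg h hx1 a2.symm hy2.symm a1.ne
      have := q1 y (hPN (s2 hy1))
      omega
    · have := two_le_dg h hy1 a1.symm hy2 a2.ne
      have := q2 x0 (hPN hx0)
      omega

end

end Pool.Agent.Lib.MP_3ecb7c_co
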