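import Pool.Agent.Lib.MP_3ecb7c_co.R1

namespace Pool.Agent.Lib.MP_3ecb7c_co

open Finset
open scoped Classical

noncomputable section

variable {V : Type} [Fintype V] {G : SimpleGraph V}

lemma Low.lowOn {k : ℕ} (h : Low G k) : LowOn G univ k :=
  fun D _ hd => h D fun v => hd v (Finset.mem_univ v)

lemma Low.le_card {k : ℕ} (h : Low G k) : k ≤ Fintype.card V :=
  h univ fun v => Or.inl (Finset.mem_univ v)

lemma upper_noiso {k t : ℕ} (hk : 3 ≤ k) (hlow : Low G k) (hcrit : Crit G k) (hpd : PD G)
    (hiso : NoIso G) (hc : Fintype.card V = k + t) :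
    2 ≤ t ∧ ((E G ≤ t * (t + 1) ∧ t ≤ k) ∨ 2 * E G + t ≤ 2 * (t * (t + 1)) + 4) := by
  obtain ⟨q, rfl⟩ : ∃ q, k = q + 1 := ⟨k - 1, by omega⟩
  have hne : (univ : Finset V).Nonempty := by rw [← Finset.card_pos, Finset.card_univ]; omega
  obtain ⟨v, hv, hmax⟩ := Finset.exists_max_image univ (fun x => dg G x univ) hne
  obtain ⟨r, S, _, hSc, hUc, hl, hle⟩ := vizing_step G univ q hlow.lowOn v hv hmax
  have hviz := vizing G q S r hl hSc
  rw [Finset.card_univ] at hUc
  have hsp := card_split (G := G) v
  have hnb := nb_card (G := G) v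
  have hd : 2 ≤ dg G v univ := by
    by_contra hlt
    obtain ⟨b, hb⟩ := hiso v
    refine hb.ne (hpd v b fun x => ⟨?_, ?_⟩)
    · rintro (h | h)
      · right; exact h ▸ hb.symm
      · left; by_contra hx
        exact hlt (two_le_dg (Finset.mem_univ _) (Finset.mem_univ _) h hb hx)
    · rintro (h | h)
      · right; exact h ▸ hb
      · left; by_contra hx
        have := two_le_dg (Finset.mem_univ _) (Finset.mem_univ _) h hb.symm hx
        have := hmax b (Finset.mem_univ _)
        omega
  have ht : t = r + dg G v univ := by omega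
  refine ⟨by omega, ?_⟩
  rcases Nat.lt_or_ge r 2 with h2 | h2
  · interval_cases r
    · have := r0 (by omega) hlow hcrit hpd hiso v (by omega)
      rw [hnb, show dg G v univ = t by omega] at this
      exact this
    · right
      have := r1 (by omega) hlow hiso v (by omega) (fun x => hmax x (Finset.mem_univ x))
      rw [hnb, show dg G v univ + 1 = t by omega] at this
      exact this
  · right
    have hE : E G = ∑ x ∈ univ, dg G x univ := rfl
    obtain ⟨a, rfl⟩ := Nat.exists_eq_add_of_le h2
    obtain ⟨b, hb⟩ := Nat.exists_eq_add_of_le hd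
    rw [hb] at ht hle
    subst ht
    nlinarith [Nat.zero_le (a * b)]

omit [Fintype V] in
lemma complete_of_le_one {k : ℕ} (hk : k ≤ 1) (hcrit : Crit G k) (hpd : PD G) (a b : V) :
    a = b := by
  have all : ∀ x y, x ≠ y → G.Adj x y := by
    intro x y hxy
    by_contra hn
    obtain ⟨D, hD, hdom⟩ := hcrit x y hxy hn
    have : D = ∅ := Finset.card_eq_zero.1 (by omega)
    subst this
    simpa using hdom x
  refine hpd a b fun x => ⟨fun _ => ?_, fun _ => ?_⟩
  · by_cases e : x = b
    · exact Or.inl e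
    · exact Or.inr (all b x (Ne.symm e))
  · by_cases e : x = a
    · exact Or.inl e
    · exact Or.inr (all a x (Ne.symm e))

lemma even_of_two (hlow : Low G 2) (hcrit : Crit G 2) (hpd : PD G) :
    Even (Fintype.card V) := by
  have non : ∀ x, ∃ y, y ≠ x ∧ ¬ G.Adj y x := fun x => by
    obtain ⟨z, hz⟩ := hlow.undom {x} (by simp)
    exact ⟨z, hz x (by simp)⟩
  have uq : ∀ a b, a ≠ b → ¬ G.Adj a b →
      (∀ y, y ≠ a → ¬ G.Adj y a → y = b) ∨ (∀ y, y ≠ b → ¬ G.Adj y b → y = a) := by
    intro a b hab hn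
    obtain ⟨D, hD, hdom⟩ := hcrit a b hab hn
    obtain ⟨z, hz⟩ := hlow.undom D hD
    have one := Finset.card_le_one.1 (show D.card ≤ 1 by omega)
    rcases hdom z with h | ⟨u, hu, h⟩ | h | h
    · exact absurd rfl (hz z h).1
    · exact absurd h (hz u hu).2
    · right
      intro y h1 h2
      rcases hdom y with g | ⟨u, hu, g⟩ | g | g
      · exact absurd (one y g b h.2) h1
      · exact absurd (one u hu b h.2 ▸ g) h2
      · exact g.1
      · exact absurd g.1 h1
    · left
      intro y h1 h2
      rcases hdom y with g | ⟨u, hu, g⟩ | g | g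
      · exact absurd (one y g a h.2) h1
      · exact absurd (one u hu a h.2 ▸ g) h2
      · exact absurd g.1 h1
      · exact g.1
  have one : ∀ x, dg Gᶜ x univ = 1 := by
    intro x
    obtain ⟨y, hy1, hy2⟩ := non x
    have h1 : 1 ≤ dg Gᶜ x univ :=
      one_le_dg (Finset.mem_univ y) ((G.compl_adj x y).2 ⟨hy1.symm, fun h => hy2 h.symm⟩)
    by_contra hc
    have h2 : ∃ y', y' ≠ y ∧ y' ≠ x ∧ ¬ G.Adj y' x := by
      by_contra hn
      push Not at hn
      have : dg Gᶜ x univ ≤ ({y} : Finset V).card := by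
        refine Finset.card_le_card fun z hz => ?_
        have hz' : Gᶜ.Adj x z := by simpa using hz
        rw [SimpleGraph.compl_adj] at hz'
        rw [Finset.mem_singleton]
        by_contra hzy
        exact hz'.2 (hn z hzy hz'.1.symm).symm
      simp only [Finset.card_singleton] at this
      omega
    obtain ⟨y', h3, h4, h5⟩ := h2
    have u1 : ∀ z, z ≠ y → ¬ G.Adj z y → z = x := by
      rcases uq y x hy1 hy2 with h | h
      · exact h
      · exact absurd (h y' h4 h5) h3
    have u2 : ∀ z, z ≠ y' → ¬ G.Adj z y' → z = x := by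
      rcases uq y' x h4 h5 with h | h
      · exact h
      · exact absurd (h y hy1 hy2) h3.symm
    refine h3 (hpd y' y fun z => ⟨fun h => ?_, fun h => ?_⟩)
    · by_contra hn
      push Not at hn
      have := u1 z hn.1 (fun e => hn.2 e.symm)
      subst this
      rcases h with h | h
      · exact h4 h.symm
      · exact h5 h
    · by_contra hn
      push Not at hn
      have := u2 z hn.1 (fun e => hn.2 e.symm)
      subst this
      rcases h with h | h
      · exact hy1 h.symm
      · exact hy2 h
  have := even_sum_dg Gᶜ (univ : Finset V)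
  simpa [one] using this

lemma upper_odd {k t : ℕ} (hlow : Low G k) (hcrit : Crit G k) (hpd : PD G)
    (hup : ∃ D : Finset V, D.card ≤ k ∧ ∀ v, v ∈ D ∨ ∃ u ∈ D, G.Adj v u)
    (hc : Fintype.card V = k + t) (ht : Odd t) :
    3 ≤ k ∧ 3 ≤ t ∧ E G ≤ t * (t + 1) ∧ (k < t → E G + 2 * (t / 4) ≤ t * (t + 1)) := by
  set I : Finset V := univ.filter (fun x => ¬ ∃ y, G.Adj x y) with hI
  let W := {x : V // ∃ y, G.Adj x y}
  let G' : SimpleGraph W := G.comap Subtype.val
  let ι : W ↪ V := ⟨Subtype.val, Subtype.val_injective⟩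
  have hcW : Fintype.card W + I.card = Fintype.card V := by
    rw [Fintype.card_subtype, hI, Finset.card_filter_add_card_filter_not, Finset.card_univ]
  have hIk : I.card ≤ k := by
    obtain ⟨D, hD, hdom⟩ := hup
    refine le_trans (Finset.card_le_card fun x hx => ?_) hD
    rcases hdom x with h | ⟨u, _, h⟩
    · exact h
    · exact absurd ⟨u, h⟩ (Finset.mem_filter.1 hx).2
  obtain ⟨k', rfl⟩ := Nat.exists_eq_add_of_le hIk
  have low' : Low G' k' := by
    intro D hdom
    have := hlow (I ∪ D.map ι) (fun x => by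
      by_cases hx : ∃ y, G.Adj x y
      · rcases hdom ⟨x, hx⟩ with h | ⟨u, hu, h⟩
        · left; exact Finset.mem_union_right _ (Finset.mem_map_of_mem ι h)
        · right; exact ⟨u.1, Finset.mem_union_right _ (Finset.mem_map_of_mem ι hu), h⟩
      · left; exact Finset.mem_union_left _ (Finset.mem_filter.2 ⟨Finset.mem_univ _, hx⟩))
    have h2 := Finset.card_union_le I (D.map ι)
    rw [Finset.card_map] at h2
    omega
  have crit' : Crit G' k' := by
    intro a b hab hn
    obtain ⟨D, hD, hdom⟩ := hcrit a.1 b.1 (fun e => hab (Subtype.ext e)) hn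
    have hID : I ⊆ D := by
      intro x hx
      have hx' := (Finset.mem_filter.1 hx).2
      rcases hdom x with h | ⟨u, _, h⟩ | h | h
      · exact h
      · exact absurd ⟨u, h⟩ hx'
      · exact absurd (h.1 ▸ a.2) hx'
      · exact absurd (h.1 ▸ b.2) hx'
    refine ⟨D.subtype _, ?_, fun v => ?_⟩
    · rw [Finset.card_subtype]
      have h1 := Finset.card_filter_add_card_filter_not (s := D) (fun x => ∃ y, G.Adj x y)
      have h2 : I.card ≤ (D.filter (fun x => ¬ ∃ y, G.Adj x y)).card :=
        Finset.card_le_card fun x hx =>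
          Finset.mem_filter.2 ⟨hID hx, (Finset.mem_filter.1 hx).2⟩
      omega
    · rcases hdom v.1 with h | ⟨u, hu, h⟩ | h | h
      · exact Or.inl (Finset.mem_subtype.2 h)
      · exact Or.inr (Or.inl ⟨⟨u, v.1, h.symm⟩, Finset.mem_subtype.2 hu, h⟩)
      · exact Or.inr (Or.inr (Or.inl ⟨Subtype.ext h.1, Finset.mem_subtype.2 h.2⟩))
      · exact Or.inr (Or.inr (Or.inr ⟨Subtype.ext h.1, Finset.mem_subtype.2 h.2⟩))
  have pd' : PD G' := by
    intro a b h
    refine Subtype.ext (hpd a.1 b.1 fun x => ?_)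
    by_cases hx : ∃ y, G.Adj x y
    · have := h ⟨x, hx⟩
      have e1 : (⟨x, hx⟩ : W) = a ↔ x = a.1 := Subtype.ext_iff
      have e2 : (⟨x, hx⟩ : W) = b ↔ x = b.1 := Subtype.ext_iff
      rw [e1, e2] at this
      exact this
    · constructor
      · rintro (e | e)
        · exact absurd (e ▸ a.2) hx
        · exact absurd ⟨_, e.symm⟩ hx
      · rintro (e | e)
        · exact absurd (e ▸ b.2) hx
        · exact absurd ⟨_, e.symm⟩ hx
  have iso' : NoIso G' := fun a => by
    obtain ⟨y, hy⟩ := a.2
    exact ⟨⟨y, a.1, hy.symm⟩, hy⟩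
  have hE : E G' = E G := by
    have h1 : ∀ x : W, dg G' x univ = dg G x.1 univ := by
      intro x
      unfold dg
      rw [← Finset.card_map ι]
      congr 1
      ext y
      simp only [Finset.mem_map, Finset.mem_filter, Finset.mem_univ, true_and]
      constructor
      · rintro ⟨z, hz, rfl⟩; exact hz
      · intro hy; exact ⟨⟨y, x.1, hy.symm⟩, hy, rfl⟩
    unfold E
    simp only [h1]
    rw [← Finset.sum_subtype (univ.filter (fun x => ∃ y, G.Adj x y)) (by simp)
      (fun x => dg G x univ)]
    refine Finset.sum_subset (Finset.filter_subset _ _) fun x _ hx => ?_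
    unfold dg
    rw [Finset.card_eq_zero, Finset.filter_eq_empty_iff]
    intro y _ hy
    exact hx (Finset.mem_filter.2 ⟨Finset.mem_univ _, y, hy⟩)
  have hcW' : Fintype.card W = k' + t := by omega
  obtain ⟨j, hj⟩ := ht
  have hk3 : 3 ≤ k' := by
    by_contra hlt
    by_cases h2 : k' = 2
    · subst h2
      obtain ⟨m, hm⟩ := even_of_two low' crit' pd'
      omega
    · obtain ⟨a⟩ : Nonempty W := Fintype.card_pos_iff.1 (by omega)
      obtain ⟨b, hb⟩ := iso' a
      exact hb.ne (complete_of_le_one (by omega) crit' pd' a b)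
  obtain ⟨h2, h3⟩ := upper_noiso hk3 low' crit' pd' iso' hcW'
  rw [hE] at h3
  obtain ⟨m, hm⟩ : Even (E G) := even_sum_dg G univ
  obtain ⟨c, hc'⟩ : Even (t * (t + 1)) := Nat.even_mul_succ_self t
  refine ⟨by omega, by omega, by omega, fun _ => by omega⟩

end

end Pool.Agent.Lib.MP_3ecb7c_co
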